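import Mathlib
import Pool.Agent.N753.DR.Stm6
import Pool.Agent.N681.PC.SZ
import Pool.Agent.N703.PC.PolyV
import Pool.Agent.N787.PC.Gcd
import Pool.Agent.W352.ChAbs.Cnt

/-!
# PC/MOD: congruence conditions in boxes
-/

set_option autoImplicit false

namespace Pool.Agent.L5helper18.PC

open NumberField IsDedekindDomain Module
open Pool.Agent.N753.DR

section F

variable {F : Type} [Field F] [DecidableEq F]

theorem z1 {N : ℕ} (hN : 1 ≤ N) (H : MvPolynomial (Fin N) F) (hH : H ≠ 0) (S : Finset ℤ)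
    (hS : 0 < S.card) (s : ℕ) (hs : ∀ y : F, (S.filter (fun a : ℤ => (a : F) = y)).card ≤ s) :
    ((Fintype.piFinset fun _ : Fin N => S).filter
      (fun c => MvPolynomial.eval (fun i => (c i : F)) H = 0)).card ≤
      H.totalDegree * s * S.card ^ (N - 1) := by
  have h := Pool.Agent.N681.PC.zippel S (fun a : ℤ => (a : F)) s hs N H hH
  obtain ⟨M, rfl⟩ : ∃ M, N = M + 1 := ⟨N - 1, by omega⟩
  rw [Nat.add_sub_cancel]
  rw [pow_succ, ← mul_assoc] at h
  exact Nat.le_of_mul_le_mul_right h hS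

end F

section

variable {K : Type} [Field K] [NumberField K]

theorem dvd_int {v : HeightOneSpectrum (𝓞 K)} {p : ℕ} (hp : p.Prime)
    (h : (p : 𝓞 K) ∈ v.asIdeal) {m : ℤ} (hm : (m : 𝓞 K) ∈ v.asIdeal) : (p : ℤ) ∣ m := by
  by_contra hn
  have h1 : IsCoprime ((p : ℤ)) m :=
    ((Nat.prime_iff_prime_int.1 hp).irreducible.coprime_iff_not_dvd).2 hn
  obtain ⟨a, b, hab⟩ := h1
  have h2 : (1 : 𝓞 K) ∈ v.asIdeal := by
    have h3 : (1 : 𝓞 K) = (a : 𝓞 K) * (p : 𝓞 K) + (b : 𝓞 K) * (m : 𝓞 K) := by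
      have := congrArg (Int.cast : ℤ → 𝓞 K) hab.symm
      push_cast at this
      exact this
    rw [h3]
    exact add_mem (Ideal.mul_mem_left _ _ h) (Ideal.mul_mem_left _ _ hm)
  exact v.isPrime.ne_top ((Ideal.eq_top_iff_one _).2 h2)

open Classical in
theorem zv {N : ℕ} (hN : 1 ≤ N) {v : HeightOneSpectrum (𝓞 K)} {p : ℕ} (hp : p.Prime)
    (hv : (p : 𝓞 K) ∈ v.asIdeal) (H : MvPolynomial (Fin N) (𝓞 K))
    (hH : ∃ m, H.coeff m ∉ v.asIdeal) (S : Finset ℤ) (hS : 0 < S.card) (s : ℕ)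
    (hs : ∀ a : ℤ, (S.filter (fun x => x ≡ a [ZMOD p])).card ≤ s) :
    ((Fintype.piFinset fun _ : Fin N => S).filter
      (fun c => MvPolynomial.eval (fun i => (c i : 𝓞 K)) H ∈ v.asIdeal)).card ≤
      H.totalDegree * s * S.card ^ (N - 1) := by
  haveI : v.asIdeal.IsMaximal := v.isMaximal
  letI : Field (𝓞 K ⧸ v.asIdeal) := Ideal.Quotient.field v.asIdeal
  set φ : 𝓞 K →+* (𝓞 K ⧸ v.asIdeal) := Ideal.Quotient.mk v.asIdeal with hφ
  have h0 : MvPolynomial.map φ H ≠ 0 := by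
    obtain ⟨m, hm⟩ := hH
    intro h0
    apply hm
    have h1 := congrArg (fun q => MvPolynomial.coeff m q) h0
    simp only [MvPolynomial.coeff_map, MvPolynomial.coeff_zero] at h1
    exact Ideal.Quotient.eq_zero_iff_mem.1 h1
  have hfib : ∀ y : 𝓞 K ⧸ v.asIdeal,
      (S.filter (fun a : ℤ => (a : 𝓞 K ⧸ v.asIdeal) = y)).card ≤ s := by
    intro y
    rcases (S.filter (fun a : ℤ => (a : 𝓞 K ⧸ v.asIdeal) = y)).eq_empty_or_nonempty with h | h
    · rw [h, Finset.card_empty]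
      exact Nat.zero_le _
    · obtain ⟨a, ha⟩ := h
      rw [Finset.mem_filter] at ha
      refine (Finset.card_le_card ?_).trans (hs a)
      intro x hx
      rw [Finset.mem_filter] at hx ⊢
      refine ⟨hx.1, ?_⟩
      have h1 : ((x : 𝓞 K ⧸ v.asIdeal)) = a := hx.2.trans ha.2.symm
      have h2 : ((a - x : ℤ) : 𝓞 K) ∈ v.asIdeal := by
        rw [← Ideal.Quotient.eq_zero_iff_mem, map_intCast]
        push_cast
        rw [h1, sub_self]
      exact Int.modEq_iff_dvd.2 (dvd_int hp hv h2)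
  have h1 := z1 hN (MvPolynomial.map φ H) h0 S hS s hfib
  have h2 : (MvPolynomial.map φ H).totalDegree ≤ H.totalDegree := by
    rw [MvPolynomial.totalDegree, MvPolynomial.totalDegree]
    exact Finset.sup_mono (MvPolynomial.support_map_subset _ _)
  refine le_trans (Finset.card_le_card ?_) (h1.trans
    (Nat.mul_le_mul_right _ (Nat.mul_le_mul_right _ h2)))
  intro c hc
  rw [Finset.mem_filter] at hc ⊢
  refine ⟨hc.1, ?_⟩
  have h3 := (Ideal.Quotient.eq_zero_iff_mem (I := v.asIdeal)).2 hc.2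
  rw [MvPolynomial.eval_map]
  have h4 : φ (MvPolynomial.eval (fun i => (c i : 𝓞 K)) H) =
      MvPolynomial.eval₂ φ (fun i => (c i : 𝓞 K ⧸ v.asIdeal)) H := by
    rw [← MvPolynomial.eval₂_id, MvPolynomial.eval₂_comp_left]
    congr 1
  rw [← h4]
  exact h3

open Classical in
theorem zp {N : ℕ} (hN : 1 ≤ N) {p : ℕ} (hp : p.Prime) (H : MvPolynomial (Fin N) (𝓞 K))
    (hH : ∀ v : HeightOneSpectrum (𝓞 K), (p : 𝓞 K) ∈ v.asIdeal → ∃ m, H.coeff m ∉ v.asIdeal)
    (S : Finset ℤ) (hS : 0 < S.card) (s : ℕ)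
    (hs : ∀ a : ℤ, (S.filter (fun x => x ≡ a [ZMOD p])).card ≤ s) :
    ((Fintype.piFinset fun _ : Fin N => S).filter
      (fun c => Meet H (fun i => (c i : 𝓞 K)) p)).card ≤
      finrank ℚ K * (H.totalDegree * s * S.card ^ (N - 1)) := by
  obtain ⟨hf, hc⟩ := Pool.Agent.W352.ChAbs.over_le (K := K) p hp
  rw [Set.ncard_eq_toFinset_card _ hf] at hc
  have h1 : ((Fintype.piFinset fun _ : Fin N => S).filter
      (fun c => Meet H (fun i => (c i : 𝓞 K)) p)) ⊆ hf.toFinset.biUnion fun v =>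
        ((Fintype.piFinset fun _ : Fin N => S).filter
      (fun c => MvPolynomial.eval (fun i => (c i : 𝓞 K)) H ∈ v.asIdeal)) := by
    intro c hc
    rw [Finset.mem_filter] at hc
    obtain ⟨v, hv, hv'⟩ := hc.2
    rw [Finset.mem_biUnion]
    exact ⟨v, hf.mem_toFinset.2 hv, Finset.mem_filter.2 ⟨hc.1, hv'⟩⟩
  refine (Finset.card_le_card h1).trans (Finset.card_biUnion_le.trans ?_)
  refine (Finset.sum_le_sum fun v hv => zv hN hp (hf.mem_toFinset.1 hv) H
    (hH v (hf.mem_toFinset.1 hv)) S hS s hs).trans ?_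
  rw [Finset.sum_const, smul_eq_mul]
  exact Nat.mul_le_mul_right _ hc

/-- several primes at once -/
theorem zQ {N : ℕ} (hN : 1 ≤ N) (H : MvPolynomial (Fin N) (𝓞 K)) (Q : Finset ℕ)
    (hQ : ∀ p ∈ Q, p.Prime)
    (hH : ∀ p ∈ Q, ∀ v : HeightOneSpectrum (𝓞 K), (p : 𝓞 K) ∈ v.asIdeal →
      ∃ m, H.coeff m ∉ v.asIdeal) (X : ℕ) (hX : ∏ p ∈ Q, p ≤ X) (A : Finset (Fin N → ℤ))
    (hA : ∀ t ∈ A, (∀ s, t s ∈ Finset.Icc (-(X : ℤ)) X) ∧
      ∀ p ∈ Q, Meet H (fun i => (t i : 𝓞 K)) p) :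
    (A.card : ℝ) ≤ (4 * X / ∏ p ∈ Q, (p : ℝ)) ^ N *
      ∏ p ∈ Q, ((finrank ℚ K : ℝ) * H.totalDegree * (p : ℝ) ^ (N - 1)) := by
  classical
  set M : ℕ := ∏ p ∈ Q, p with hM
  have hM0 : 0 < M := Finset.prod_pos fun p hp => (hQ p hp).pos
  have hMR : ∏ p ∈ Q, (p : ℝ) = M := by rw [hM, Nat.cast_prod]
  have hM1 : (1 : ℝ) ≤ M := by exact_mod_cast hM0
  have hXM : (M : ℝ) ≤ X := by exact_mod_cast hX
  set Z : ℕ → Finset (Fin N → ℤ) := fun p =>
    (Fintype.piFinset fun _ : Fin N => Finset.Ico (0 : ℤ) p).filter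
      (fun c => Meet H (fun i => (c i : 𝓞 K)) p) with hZ
  set f : (Fin N → ℤ) → (∀ p ∈ Q, Fin N → ℤ) := fun t p _ s => t s % (p : ℤ) with hf
  have himg : A.image f ⊆ Q.pi Z := by
    intro g hg
    obtain ⟨t, ht, rfl⟩ := Finset.mem_image.1 hg
    rw [Finset.mem_pi]
    intro p hp
    have hp0 : (0 : ℤ) < p := by exact_mod_cast (hQ p hp).pos
    rw [hZ]
    beta_reduce
    rw [Finset.mem_filter, Fintype.mem_piFinset]
    refine ⟨fun s => ?_, ?_⟩
    · rw [Finset.mem_Ico]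
      exact ⟨Int.emod_nonneg _ hp0.ne', Int.emod_lt_of_pos _ hp0⟩
    · obtain ⟨v, hv, hv'⟩ := (hA t ht).2 p hp
      refine ⟨v, hv, ?_⟩
      have h1 : MvPolynomial.eval (fun i => ((f t p hp i : ℤ) : 𝓞 K)) H -
          MvPolynomial.eval (fun i => (t i : 𝓞 K)) H ∈ v.asIdeal := by
        rw [← Ideal.Quotient.eq_zero_iff_mem, map_sub, sub_eq_zero]
        have h2 : ∀ u : Fin N → 𝓞 K, Ideal.Quotient.mk v.asIdeal (MvPolynomial.eval u H) =
            MvPolynomial.eval₂ (Ideal.Quotient.mk v.asIdeal)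
              (fun i => Ideal.Quotient.mk v.asIdeal (u i)) H := by
          intro u
          rw [← MvPolynomial.eval₂_id, MvPolynomial.eval₂_comp_left]
          congr 1
        rw [h2, h2]
        congr 1
        funext i
        rw [Ideal.Quotient.eq, hf]
        have h3 : ((t i % (p : ℤ) : ℤ) : 𝓞 K) - (t i : 𝓞 K) = (p : 𝓞 K) * (-((t i / (p : ℤ) : ℤ))) := by
          rw [Int.emod_def]
          push_cast
          ring
        rw [h3]
        exact v.asIdeal.mul_mem_right _ hv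
      have h2 := v.asIdeal.add_mem h1 hv'
      rw [sub_add_cancel] at h2
      exact h2
  have hfib : ∀ g ∈ A.image f, ((A.filter fun t => f t = g).card : ℝ) ≤ (4 * X / M) ^ N := by
    intro g hg
    obtain ⟨t₀, ht₀, rfl⟩ := Finset.mem_image.1 hg
    have h1 : (A.filter fun t => f t = f t₀) ⊆ Fintype.piFinset fun s : Fin N =>
        (Finset.Icc (-(X : ℤ)) X).filter (fun x => x ≡ t₀ s [ZMOD M]) := by
      intro t ht
      rw [Finset.mem_filter] at ht
      rw [Fintype.mem_piFinset]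
      intro s
      rw [Finset.mem_filter]
      refine ⟨(hA t ht.1).1 s, ?_⟩
      rw [Int.modEq_iff_dvd, hM]
      push_cast
      refine Finset.prod_dvd_of_coprime ?_ ?_
      · intro p hp q hq hpq
        exact Nat.isCoprime_iff_coprime.2 ((Nat.coprime_primes (hQ p hp) (hQ q hq)).2 hpq)
      · intro p hp
        have h2 := congrFun (congrFun (congrFun ht.2 p) hp) s
        exact Int.modEq_iff_dvd.1 h2
    calc ((A.filter fun t => f t = f t₀).card : ℝ) ≤ ((Fintype.piFinset fun s : Fin N =>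
        (Finset.Icc (-(X : ℤ)) X).filter (fun x => x ≡ t₀ s [ZMOD M])).card : ℝ) := by
          exact_mod_cast Finset.card_le_card h1
      _ = ∏ s : Fin N, (((Finset.Icc (-(X : ℤ)) X).filter
            (fun x => x ≡ t₀ s [ZMOD M])).card : ℝ) := by
          rw [Fintype.card_piFinset, Nat.cast_prod]
      _ ≤ ∏ _s : Fin N, (4 * (X : ℝ) / M) := by
          refine Finset.prod_le_prod (fun _ _ => Nat.cast_nonneg _) fun s _ => ?_
          refine (Pool.Agent.N703.PC.cls X M hM0 (t₀ s)).trans ?_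
          rw [div_add_one (by positivity)]
          refine div_le_div_of_nonneg_right ?_ (by positivity)
          linarith
      _ = (4 * X / M) ^ N := by
          rw [Finset.prod_const, Finset.card_univ, Fintype.card_fin]
  have hZc : ∀ p ∈ Q, ((Z p).card : ℝ) ≤ (finrank ℚ K : ℝ) * H.totalDegree * (p : ℝ) ^ (N - 1) := by
    intro p hp
    have h1 := zp hN (hQ p hp) H (hH p hp) (Finset.Ico (0 : ℤ) p) (by
      rw [Int.card_Ico]
      have := (hQ p hp).pos
      simpa using this) 1 (by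
        intro a
        rw [Finset.card_le_one]
        intro x hx y hy
        rw [Finset.mem_filter, Finset.mem_Ico] at hx hy
        have h2 : x % (p : ℤ) = y % (p : ℤ) := hx.2.trans hy.2.symm
        rwa [Int.emod_eq_of_lt hx.1.1 hx.1.2, Int.emod_eq_of_lt hy.1.1 hy.1.2] at h2)
    rw [Int.card_Ico, sub_zero, Int.toNat_natCast, mul_one] at h1
    have h2 : ((Z p).card : ℝ) ≤ ((finrank ℚ K * (H.totalDegree * p ^ (N - 1)) : ℕ) : ℝ) := by
      exact_mod_cast h1
    refine h2.trans (le_of_eq ?_)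
    push_cast
    ring
  rw [hMR]
  have h1 : (A.card : ℝ) = ∑ g ∈ A.image f, ((A.filter fun t => f t = g).card : ℝ) := by
    exact_mod_cast Finset.card_eq_sum_card_image f A
  rw [h1]
  refine (Finset.sum_le_card_nsmul _ _ _ hfib).trans ?_
  rw [nsmul_eq_mul, mul_comm]
  refine mul_le_mul_of_nonneg_left ?_ (by positivity)
  calc ((A.image f).card : ℝ) ≤ ((Q.pi Z).card : ℝ) := by exact_mod_cast Finset.card_le_card himg
    _ = ∏ p ∈ Q, ((Z p).card : ℝ) := by rw [Finset.card_pi, Nat.cast_prod]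
    _ ≤ _ := Finset.prod_le_prod (fun _ _ => Nat.cast_nonneg _) hZc

end

/-- integer coordinates -/
theorem coords (K : Type) [Field K] [NumberField K] (n N : ℕ) (hN : N = finrank ℚ K * n) :
    ∃ f : (Fin n → 𝓞 K) → Fin N → ℤ, Function.Injective f ∧
      (∀ X c, c ∈ Bx K n X → ∀ s, f c s ∈ Finset.Icc (-(X : ℤ)) X) ∧
      ∀ G : MvPolynomial (Fin n) (𝓞 K), G ≠ 0 → ∃ H : MvPolynomial (Fin N) (𝓞 K), H ≠ 0 ∧
        ∀ c, MvPolynomial.eval (fun s => (f c s : 𝓞 K)) H = MvPolynomial.eval c G := by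
  classical
  have hcard : Fintype.card (Fin n × Free.ChooseBasisIndex ℤ (𝓞 K)) = N := by
    rw [Fintype.card_prod, Fintype.card_fin, ← finrank_eq_card_chooseBasisIndex,
      RingOfIntegers.rank, hN, mul_comm]
  set e : (Fin n × Free.ChooseBasisIndex ℤ (𝓞 K)) ≃ Fin N := Fintype.equivFinOfCardEq hcard with he
  set b := RingOfIntegers.basis K with hb
  set f : (Fin n → 𝓞 K) → Fin N → ℤ := fun c s => b.repr (c (e.symm s).1) (e.symm s).2 with hf
  refine ⟨f, ?_, ?_, ?_⟩
  · intro c c' h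
    funext j
    apply b.repr.injective
    ext l
    have h1 := congrFun h (e (j, l))
    simp only [hf, Equiv.symm_apply_apply] at h1
    exact h1
  · intro X c hc s
    have h1 := (Pool.Agent.N703.PC.sz_le (c (e.symm s).1) X).1 (hc _) (e.symm s).2
    rw [Finset.mem_Icc, ← abs_le, ← Int.natCast_natAbs]
    exact_mod_cast h1
  · intro G hG
    set φ : Fin n → MvPolynomial (Fin N) (𝓞 K) := fun s =>
      ∑ l, MvPolynomial.C (b l : 𝓞 K) * MvPolynomial.X (e (s, l)) with hφ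
    set H : MvPolynomial (Fin N) (𝓞 K) := MvPolynomial.bind₁ φ G with hH
    have hev : ∀ c : Fin n → 𝓞 K,
        MvPolynomial.eval (fun s => (f c s : 𝓞 K)) H = MvPolynomial.eval c G := by
      intro c
      have h1 : ∀ s, MvPolynomial.eval (fun s => (f c s : 𝓞 K)) (φ s) = c s := by
        intro s
        rw [hφ]
        beta_reduce
        rw [map_sum]
        have h2 : ∀ l, MvPolynomial.eval (fun s => (f c s : 𝓞 K)) (MvPolynomial.C (b l : 𝓞 K) *
            MvPolynomial.X (e (s, l))) = (b.repr (c s) l) • (b l : 𝓞 K) := by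
          intro l
          rw [map_mul, MvPolynomial.eval_C, MvPolynomial.eval_X, hf]
          beta_reduce
          rw [Equiv.symm_apply_apply, zsmul_eq_mul, mul_comm]
        simp_rw [h2]
        exact b.sum_repr (c s)
      rw [hH, MvPolynomial.eval, MvPolynomial.eval₂Hom_bind₁]
      congr 2
      funext s
      exact h1 s
    refine ⟨H, ?_, hev⟩
    intro h0
    apply hG
    apply MvPolynomial.funext
    intro c
    have h1 := hev c
    rw [h0, map_zero] at h1
    rw [map_zero]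
    exact h1.symm

theorem ncard_le {α β : Type} (f : α → β) (hf : Function.Injective f) (T : Set α) (A : Finset β)
    (h : ∀ t ∈ T, f t ∈ A) : T.ncard ≤ A.card := by
  rw [← Set.ncard_image_of_injective T hf, ← Set.ncard_coe_finset A]
  refine Set.ncard_le_ncard ?_ A.finite_toSet
  rintro _ ⟨t, ht, rfl⟩
  exact h t ht

theorem mod : StmMod := by
  classical
  intro K _ _ n hn G hG
  obtain ⟨N, hN⟩ : ∃ N, N = finrank ℚ K * n := ⟨_, rfl⟩
  have hN1 : 1 ≤ N := by
    rw [hN]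
    exact Nat.mul_pos finrank_pos hn
  obtain ⟨f, hinj, hbox, hsub⟩ := coords K n N hN
  obtain ⟨H, hH, hev⟩ := hsub G hG
  obtain ⟨m, hm⟩ : ∃ m, H.coeff m ≠ 0 := MvPolynomial.ne_zero_iff.1 hH
  obtain ⟨P₀, hP₀⟩ : ∃ P₀, P₀ = Ideal.absNorm (Ideal.span {H.coeff m}) + 1 := ⟨_, rfl⟩
  have hco : ∀ p : ℕ, p.Prime → P₀ ≤ p → ∀ v : HeightOneSpectrum (𝓞 K), (p : 𝓞 K) ∈ v.asIdeal →
      ∃ m, H.coeff m ∉ v.asIdeal := by
    intro p hp hP v hv
    refine ⟨m, fun h => ?_⟩
    have h1 : p ∣ Ideal.absNorm v.asIdeal := Pool.Agent.N787.PC.Gcd.dvd_of_mem hp hv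
    have h2 : Ideal.absNorm v.asIdeal ∣ Ideal.absNorm (Ideal.span {H.coeff m}) := by
      refine Ideal.absNorm_dvd_absNorm_of_le ?_
      rw [Ideal.span_singleton_le_iff_mem]
      exact h
    have h3 : Ideal.absNorm (Ideal.span {H.coeff m}) ≠ 0 := by
      rw [Ne, Ideal.absNorm_eq_zero_iff, Ideal.span_singleton_eq_bot]
      exact hm
    have := Nat.le_of_dvd (Nat.pos_of_ne_zero h3) (h1.trans h2)
    omega
  obtain ⟨d, hd⟩ : ∃ d : ℝ, d = finrank ℚ K := ⟨_, rfl⟩
  obtain ⟨D, hD⟩ : ∃ D : ℝ, D = H.totalDegree := ⟨_, rfl⟩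
  have hd0 : 0 ≤ d := by rw [hd]; exact Nat.cast_nonneg _
  have hD0 : 0 ≤ D := by rw [hD]; exact Nat.cast_nonneg _
  obtain ⟨C, hC⟩ : ∃ C : ℝ, C = 4 ^ N * (d * D + D + 1) := ⟨_, rfl⟩
  have h4N : (1 : ℝ) ≤ 4 ^ N := one_le_pow₀ (by norm_num)
  have h34 : (3 : ℝ) ^ N ≤ 4 ^ N := pow_le_pow_left₀ (by norm_num) (by norm_num) _
  have h33 : (3 : ℝ) ^ (N - 1) ≤ 3 ^ N := pow_le_pow_right₀ (by norm_num) (by omega)
  have hdD : 0 ≤ d * D := mul_nonneg hd0 hD0
  have hC1 : 1 ≤ C := by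
    rw [hC]
    exact one_le_mul_of_one_le_of_one_le h4N (by linarith)
  have hC2 : D * 3 ^ (N - 1) ≤ C := by
    rw [hC, mul_comm]
    exact mul_le_mul (h33.trans h34) (by linarith) hD0 (by positivity)
  have hC3 : d * D * 3 ^ N ≤ C := by
    rw [hC, mul_comm]
    exact mul_le_mul h34 (by linarith) hdD (by positivity)
  have hC4 : 4 ^ N ≤ C := by
    rw [hC]
    exact le_mul_of_one_le_right (by positivity) (by linarith)
  have hC5 : d * D ≤ C := by
    rw [hC]
    calc d * D ≤ d * D + D + 1 := by linarith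
      _ ≤ _ := le_mul_of_one_le_left (by positivity) h4N
  have hNR : (finrank ℚ K : ℝ) * n = (N : ℝ) := by rw [hN]; push_cast; ring
  refine ⟨C, P₀, hC1, fun X hX => ⟨?_, ?_, ?_⟩⟩
  · have hX1 : (1 : ℝ) ≤ X := by exact_mod_cast hX
    have h1 := z1 hN1 (MvPolynomial.map (algebraMap (𝓞 K) K) H) (by
        intro h0
        apply hH
        apply MvPolynomial.map_injective (algebraMap (𝓞 K) K)
          (FaithfulSMul.algebraMap_injective (𝓞 K) K)
        rw [h0, map_zero]) (Finset.Icc (-(X : ℤ)) X) (by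
          rw [Int.card_Icc]
          omega) 1 (by
        intro y
        rw [Finset.card_le_one]
        intro a ha b hb
        rw [Finset.mem_filter] at ha hb
        exact Int.cast_injective (ha.2.trans hb.2.symm))
    have h2 : (MvPolynomial.map (algebraMap (𝓞 K) K) H).totalDegree ≤ H.totalDegree := by
      rw [MvPolynomial.totalDegree, MvPolynomial.totalDegree]
      exact Finset.sup_mono (MvPolynomial.support_map_subset _ _)
    have h3 := ncard_le f hinj {c ∈ Bx K n X | MvPolynomial.eval c G = 0}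
      ((Fintype.piFinset fun _ : Fin N => Finset.Icc (-(X : ℤ)) X).filter
      (fun c => MvPolynomial.eval (fun i => (c i : K))
        (MvPolynomial.map (algebraMap (𝓞 K) K) H) = 0)) (by
        rintro c ⟨hc, hc0⟩
        rw [Finset.mem_filter, Fintype.mem_piFinset]
        refine ⟨hbox X c hc, ?_⟩
        rw [MvPolynomial.eval_map]
        have h4 : algebraMap (𝓞 K) K (MvPolynomial.eval (fun i => (f c i : 𝓞 K)) H) =
            MvPolynomial.eval₂ (algebraMap (𝓞 K) K) (fun i => (f c i : K)) H := by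
          rw [← MvPolynomial.eval₂_id, MvPolynomial.eval₂_comp_left]
          congr 1
        rw [← h4, hev, hc0, map_zero])
    have h4 : (({c ∈ Bx K n X | MvPolynomial.eval c G = 0}.ncard : ℕ) : ℝ) ≤
        D * (2 * X + 1) ^ (N - 1) := by
      have h5 := h3.trans (h1.trans (Nat.mul_le_mul_right _ (Nat.mul_le_mul_right _ h2)))
      rw [Int.card_Icc, mul_one] at h5
      have h6 : ((X : ℤ) + 1 - -(X : ℤ)).toNat = 2 * X + 1 := by omega
      rw [h6] at h5
      rw [hD]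
      exact_mod_cast h5
    rw [hNR]
    have h7 : (N : ℝ) - 1 = ((N - 1 : ℕ) : ℝ) := by
      rw [Nat.cast_sub hN1, Nat.cast_one]
    rw [h7, Real.rpow_natCast]
    calc _ ≤ D * (2 * X + 1) ^ (N - 1) := h4
      _ ≤ D * (3 * X) ^ (N - 1) :=
          mul_le_mul_of_nonneg_left (pow_le_pow_left₀ (by positivity) (by linarith) _) hD0
      _ = D * 3 ^ (N - 1) * (X : ℝ) ^ (N - 1) := by rw [mul_pow]; ring
      _ ≤ C * (X : ℝ) ^ (N - 1) := mul_le_mul_of_nonneg_right hC2 (by positivity)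
  · intro p hp hP
    have hX1 : (1 : ℝ) ≤ X := by exact_mod_cast hX
    have hp1 : (0 : ℝ) < p := by exact_mod_cast hp.pos
    obtain ⟨s, hs⟩ : ∃ s : ℕ, s = ⌊(2 * (X : ℝ) + 1) / p + 1⌋₊ := ⟨_, rfl⟩
    have hs1 : (s : ℝ) ≤ (2 * (X : ℝ) + 1) / p + 1 := by
      rw [hs]
      exact Nat.floor_le (by positivity)
    have h1 := zp hN1 hp H (hco p hp hP) (Finset.Icc (-(X : ℤ)) X) (by
          rw [Int.card_Icc]
          omega) s (by
        intro a
        rw [hs]
        exact Nat.le_floor (Pool.Agent.N703.PC.cls X p hp.pos a))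
    have h3 := ncard_le f hinj {c ∈ Bx K n X | Meet G c p}
      ((Fintype.piFinset fun _ : Fin N => Finset.Icc (-(X : ℤ)) X).filter
      (fun c => Meet H (fun i => (c i : 𝓞 K)) p)) (by
        rintro c ⟨hc, v, hv, hc0⟩
        rw [Finset.mem_filter, Fintype.mem_piFinset]
        refine ⟨hbox X c hc, v, hv, ?_⟩
        rw [hev]
        exact hc0)
    have h4 : (({c ∈ Bx K n X | Meet G c p}.ncard : ℕ) : ℝ) ≤
        d * (D * s * (2 * X + 1) ^ (N - 1)) := by
      have h5 := h3.trans h1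
      rw [Int.card_Icc] at h5
      have h6 : ((X : ℤ) + 1 - -(X : ℤ)).toNat = 2 * X + 1 := by omega
      rw [h6] at h5
      rw [hD, hd]
      exact_mod_cast h5
    rw [hNR, Real.rpow_natCast]
    have h8 : (s : ℝ) ≤ 3 * (X * (1 / p + 1 / X)) := by
      refine hs1.trans ?_
      have e1 : 3 * ((X : ℝ) * (1 / p + 1 / X)) = 3 * X / p + 3 := by
        field_simp
      rw [e1]
      have e2 : (2 * (X : ℝ) + 1) / p ≤ 3 * X / p :=
        div_le_div_of_nonneg_right (by linarith) hp1.le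
      linarith
    have h9 : (3 : ℝ) ^ N = 3 ^ (N - 1) * 3 := by
      rw [← pow_succ]
      congr 1
      omega
    have h10 : (X : ℝ) ^ N = X ^ (N - 1) * X := by
      rw [← pow_succ]
      congr 1
      omega
    calc _ ≤ d * (D * s * (2 * X + 1) ^ (N - 1)) := h4
      _ ≤ d * (D * (3 * (X * (1 / p + 1 / X))) * (3 * X) ^ (N - 1)) := by
          refine mul_le_mul_of_nonneg_left ?_ hd0
          refine mul_le_mul (mul_le_mul_of_nonneg_left h8 hD0)
            (pow_le_pow_left₀ (by positivity) (by linarith) _) (by positivity) (by positivity)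
      _ = d * D * 3 ^ N * ((X : ℝ) ^ N * (1 / p + 1 / X)) := by
          rw [mul_pow, h9, h10]; ring
      _ ≤ C * ((X : ℝ) ^ N * (1 / p + 1 / X)) :=
          mul_le_mul_of_nonneg_right hC3 (by positivity)
      _ = _ := by ring
  · intro Q hQ hQX
    have hfin := Pool.Agent.N97.DR.Core.Bx_finite (K := K) n X
    obtain ⟨A, hA⟩ : ∃ A : Finset (Fin N → ℤ), A =
        (Fintype.piFinset fun _ : Fin N => Finset.Icc (-(X : ℤ)) X).filter
      (fun c => ∀ p ∈ Q, Meet H (fun i => (c i : 𝓞 K)) p) := ⟨_, rfl⟩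
    have h3 := ncard_le f hinj {c ∈ Bx K n X | ∀ p ∈ Q, Meet G c p} A (by
        rintro c ⟨hc, hc0⟩
        rw [hA, Finset.mem_filter, Fintype.mem_piFinset]
        refine ⟨hbox X c hc, fun p hp => ?_⟩
        obtain ⟨v, hv, hv'⟩ := hc0 p hp
        refine ⟨v, hv, ?_⟩
        rw [hev]
        exact hv')
    have h4 := zQ hN1 H Q (fun p hp => (hQ p hp).1) (fun p hp => hco p (hQ p hp).1 (hQ p hp).2) X
      hQX A (by
        intro t ht
        rw [hA, Finset.mem_filter, Fintype.mem_piFinset] at ht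
        exact ht)
    obtain ⟨M, hM⟩ : ∃ M : ℝ, M = ∏ p ∈ Q, (p : ℝ) := ⟨_, rfl⟩
    have hM0 : 0 < M := by
      rw [hM]
      exact Finset.prod_pos fun p hp => by exact_mod_cast (hQ p hp).1.pos
    rw [hNR, Real.rpow_natCast, ← hM]
    rw [← hM, ← hd, ← hD, Finset.prod_mul_distrib, Finset.prod_const, Finset.prod_pow, ← hM] at h4
    have h5 : (({c ∈ Bx K n X | ∀ p ∈ Q, Meet G c p}.ncard : ℕ) : ℝ) ≤ A.card := by
      exact_mod_cast h3
    have h10 : (M : ℝ) ^ N = M ^ (N - 1) * M := by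
      rw [← pow_succ]
      congr 1
      omega
    have h11 : (4 * (X : ℝ) / M) ^ N * ((d * D) ^ Q.card * M ^ (N - 1)) =
        4 ^ N * (d * D) ^ Q.card * X ^ N / M := by
      rw [div_pow, mul_pow, h10]
      field_simp
    rw [h11] at h4
    refine h5.trans (h4.trans ?_)
    refine div_le_div_of_nonneg_right ?_ hM0.le
    refine mul_le_mul_of_nonneg_right ?_ (by positivity)
    rw [pow_succ, mul_comm]
    exact mul_le_mul (pow_le_pow_left₀ hdD hC5 _) hC4 (by positivity) (by positivity)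

end Pool.Agent.L5helper18.PC
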