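import Mathlib
import Pool.Agent.L5helper18.PC.Mod
import Pool.Agent.N787.PC.Gcd2
import Pool.Agent.N79.PC.Near
import Pool.Agent.N459.DR.Red
import Pool.Agent.N130.PC.Cnt
import Pool.Agent.N199.PC.Coin
import Pool.Agent.N901.PC.Comb
import Pool.Agent.N572.DR.Diag
import Pool.Agent.N572.DR.Inv
import Pool.Agent.N572.DR.KE
import Pool.Agent.N415.DR.VK
import Pool.Agent.N707.DR.VkG
import Pool.Agent.L5helper17.DR.SmallB1

/-!
# Project PC: tools
-/

set_option autoImplicit false

namespace Pool.Agent.L5helper18.PC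

open NumberField IsDedekindDomain Module Polynomial
open Pool.Agent.N753.DR

/-- coincidences are rare -/
theorem coin : StmCoin := Pool.Agent.N199.PC.t (Pool.Agent.N787.PC.Gcd.t mod)
  Pool.Agent.N79.PC.t Pool.Agent.N459.DR.t Pool.Agent.N130.PC.Cnt.t

/-- the condition `AtH` in terms of a root in any extension -/
theorem atH_ht {K L : Type} [Field K] [NumberField K] [Field L] [NumberField L] [Algebra K L]
    (x : L) {r : ℕ} (hr : 1 ≤ r) (hx : (minpoly K x).natDegree = r) (U : ℝ) :
    AtH r U (minpoly K x) ↔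
      Height.logHeight₁ x * ((finrank ℚ K : ℝ) * r) ≤ U * finrank ℚ L := by
  have hd : (0 : ℝ) < finrank ℚ K := by exact_mod_cast (finrank_pos (R := ℚ) (M := K))
  have hr0 : (0 : ℝ) < r := by exact_mod_cast hr
  constructor
  · rintro ⟨M, i1, i2, i3, x', h1, h2, h3, h4⟩
    have hfd : FiniteDimensional K M := Module.Finite.of_restrictScalars_finite ℚ K M
    obtain ⟨φ, hφ⟩ := Pool.Agent.N572.DR.Inv.exists_hom x' x (by rw [h2, h1]) h3
    letI : Algebra M L := (φ : M →+* L).toAlgebra
    have h5 := Pool.Agent.N572.DR.Inv.ht_ext (L := M) (M := L) x'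
    have h6 : algebraMap M L x' = x := hφ
    rw [h6] at h5
    have h7 : (finrank ℚ L : ℝ) = (finrank ℚ K : ℝ) * r * finrank M L := by
      rw [← Module.finrank_mul_finrank ℚ M L, ← Module.finrank_mul_finrank ℚ K M, h1]
      push_cast
      ring
    rw [h5, h7]
    have h8 : (0 : ℝ) ≤ finrank M L := Nat.cast_nonneg _
    have h9 : 0 ≤ (finrank ℚ K : ℝ) * r * finrank M L := by positivity
    nlinarith
  · intro h
    have hi : IsIntegral K x := Algebra.IsIntegral.isIntegral x
    have hM : finrank K (IntermediateField.adjoin K {x}) = r := by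
      rw [IntermediateField.adjoin.finrank hi, hx]
    have h5 := Pool.Agent.N572.DR.Inv.ht_ext (L := IntermediateField.adjoin K {x}) (M := L)
      (IntermediateField.AdjoinSimple.gen K x)
    rw [IntermediateField.AdjoinSimple.algebraMap_gen] at h5
    have hmin : minpoly K (IntermediateField.AdjoinSimple.gen K x) = minpoly K x :=
      IntermediateField.minpoly_gen K x
    refine ⟨IntermediateField.adjoin K {x}, inferInstance, inferInstance, inferInstance,
      IntermediateField.AdjoinSimple.gen K x, hM, by rw [hmin, hx], hmin, ?_⟩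
    have h7 : (finrank ℚ L : ℝ) = (finrank ℚ K : ℝ) * r *
        finrank (IntermediateField.adjoin K {x}) L := by
      rw [← Module.finrank_mul_finrank ℚ (IntermediateField.adjoin K {x}) L,
        ← Module.finrank_mul_finrank ℚ K (IntermediateField.adjoin K {x}), hM]
      push_cast
      ring
    have h8 : (0 : ℝ) < finrank (IntermediateField.adjoin K {x}) L := by
      have : FiniteDimensional (IntermediateField.adjoin K {x}) L :=
        Module.Finite.of_restrictScalars_finite ℚ _ L
      exact_mod_cast finrank_pos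
    rw [h5, h7] at h
    have h9 : 0 < (finrank ℚ K : ℝ) * r * finrank (IntermediateField.adjoin K {x}) L := by
      positivity
    refine le_of_mul_le_mul_right ?_ h9
    linarith

/-- the primes above a set of primes -/
theorem sum_above {F : Type} [Field F] [NumberField F] (P : Finset ℕ) (hP : ∀ p ∈ P, p.Prime)
    (W : Finset (HeightOneSpectrum (𝓞 F))) (hW : ∀ w ∈ W, ∃ p ∈ P, (p : 𝓞 F) ∈ w.asIdeal) :
    ∑ w ∈ W, lN w ≤ finrank ℚ F * ∑ p ∈ P, Real.log p := by
  classical
  have h1 : ∑ w ∈ W, lN w ≤ ∑ p ∈ P, ∑ w ∈ W with (p : 𝓞 F) ∈ w.asIdeal, lN w := by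
    have h2 : W ⊆ P.biUnion fun p => W.filter fun w => (p : 𝓞 F) ∈ w.asIdeal := by
      intro w hw
      obtain ⟨p, hp, hpw⟩ := hW w hw
      exact Finset.mem_biUnion.2 ⟨p, hp, Finset.mem_filter.2 ⟨hw, hpw⟩⟩
    refine (Finset.sum_le_sum_of_subset_of_nonneg h2 fun w _ _ =>
      Pool.Agent.N572.DR.KE.lN_nonneg w).trans (le_of_eq ?_)
    rw [Finset.sum_biUnion]
    intro p hp q hq hpq
    rw [Function.onFun, Finset.disjoint_left]
    intro w hw hw'
    exact hpq (Pool.Agent.L5helper17.DR.prime_unique (hP p hp) (hP q hq)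
      (Finset.mem_filter.1 hw).2 (Finset.mem_filter.1 hw').2)
  refine h1.trans ?_
  rw [Finset.mul_sum]
  refine Finset.sum_le_sum fun p hp => ?_
  have h3 := Pool.Agent.L5helper17.DR.above_prod (hP p hp)
    (W.filter fun w => (p : 𝓞 F) ∈ w.asIdeal) (fun w hw => (Finset.mem_filter.1 hw).2)
  have h4 : ∀ w : HeightOneSpectrum (𝓞 F), (0 : ℝ) < Ideal.absNorm w.asIdeal := fun w => by
    exact_mod_cast (zero_lt_one.trans (HeightOneSpectrum.one_lt_absNorm w))
  have h5 : ((∏ w ∈ W with (p : 𝓞 F) ∈ w.asIdeal, Ideal.absNorm w.asIdeal : ℕ) : ℝ) ≤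
      ((p ^ finrank ℚ F : ℕ) : ℝ) := by exact_mod_cast h3
  push_cast at h5
  have h6 := Real.log_le_log (Finset.prod_pos fun w _ => h4 w) h5
  rw [Real.log_prod fun w _ => (h4 w).ne', Real.log_pow] at h6
  exact h6

/-- near a point, near a zero of a polynomial which vanishes there -/
theorem near_pol {K k : Type} [Field K] [NumberField K] [Field k] [NumberField k] [Algebra K k]
    (a : k) (F : K[X]) (hF : aeval a F = 0) : ∃ n : ℕ, n ≠ 0 ∧
    ∀ (M : Type) [Field M] [NumberField M] [Algebra K M] [Algebra k M] [IsScalarTower K k M]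
      (x : M) (w : HeightOneSpectrum (𝓞 M)), (n : 𝓞 M) ∉ w.asIdeal → w.valuation M x ≤ 1 →
      w.valuation M (x - algebraMap k M a) < 1 → w.valuation M (aeval x F) < 1 := by
  classical
  have h1 : (F.map (algebraMap K k)).IsRoot a := by
    rw [IsRoot, eval_map_algebraMap]
    exact hF
  obtain ⟨G, hG⟩ := dvd_iff_isRoot.2 h1
  obtain ⟨n, hn, h⟩ := Pool.Agent.N707.DRVkG.sepZ (Finset.image G.coeff G.support)
  refine ⟨n, hn, ?_⟩
  intro M _ _ _ _ _ x w hw hx1 hx
  have h2 : aeval x F = (x - algebraMap k M a) * aeval x G := by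
    rw [← aeval_map_algebraMap k x F, hG, map_mul, map_sub, aeval_X, aeval_C]
  rw [h2, map_mul]
  have h3 : w.valuation M (aeval x G) ≤ 1 := by
    rw [aeval_eq_sum_range]
    refine Valuation.map_sum_le _ fun i _ => ?_
    rw [Algebra.smul_def, map_mul, map_pow]
    have h4 : w.valuation M (algebraMap k M (G.coeff i)) ≤ 1 := by
      by_cases h0 : G.coeff i = 0
      · rw [h0, map_zero, map_zero]
        exact zero_le_one
      · exact (h M w hw _ (Finset.mem_image.2 ⟨i, mem_support_iff.2 h0, rfl⟩) h0).le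
    calc _ ≤ (1 : WithZero (Multiplicative ℤ)) * 1 :=
          mul_le_mul' h4 (pow_le_one₀ zero_le' hx1)
      _ = 1 := one_mul 1
  calc _ ≤ w.valuation M (x - algebraMap k M a) * 1 := mul_le_mul' le_rfl h3
    _ < 1 := by rw [mul_one]; exact hx

end Pool.Agent.L5helper18.PC
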