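import Mathlib
import Pool.Agent.L5helper18.PC.Tools

/-!
# Project PC: one exceptional set
-/

set_option autoImplicit false

namespace Pool.Agent.L5helper18.PC

open NumberField IsDedekindDomain Module Polynomial
open Pool.Agent.N753.DR

variable {K : Type} [Field K] [NumberField K]

theorem ht_mono {m : ℕ} (r : Fin m → ℕ) {U U' : ℝ} (P : Fin m → K[X]) (h : U ≤ U')
    (hP : HT r U P) : HT r U' P := by
  intro i
  obtain ⟨M, i1, i2, i3, x, h3, h4, h5, h6⟩ := hP i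
  exact ⟨M, i1, i2, i3, x, h3, h4, h5,
    h6.trans (mul_le_mul_of_nonneg_left h (Nat.cast_nonneg _))⟩

/-- the coincidences with a bound which depends on the heights -/
def Coi {m : ℕ} (r : Fin m → ℕ) (S : Finset ℕ) (i j : Fin m) (F F' : K[X]) (κ : ℝ)
    (P : Fin m → K[X]) : Prop :=
  ∃ t : ℕ, HT r t P ∧ (∀ s : ℕ, s < t → ¬ HT r s P) ∧
    ∃ Q : Finset ℕ, (∀ p ∈ Q, p.Prime ∧ NearP S F (P i) p ∧ NearP S F' (P j) p) ∧
      κ * t < ∑ p ∈ Q, Real.log p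

theorem coi_count {m : ℕ} (r : Fin m → ℕ) (S : Finset ℕ) (i j : Fin m)
    (F F' : K[X]) (κ D : ℝ) (hD : 0 < D)
    (h : ∃ ν C : ℝ, 0 < ν ∧ ∀ T : ℝ, 0 ≤ T →
      {P : Fin m → K[X] | (∃ Q : Finset ℕ, (∀ p ∈ Q, p.Prime ∧ NearP S F (P i) p ∧
        NearP S F' (P j) p) ∧ κ * T < ∑ p ∈ Q, Real.log p) ∧ HT r T P}.Finite ∧
      ({P : Fin m → K[X] | (∃ Q : Finset ℕ, (∀ p ∈ Q, p.Prime ∧ NearP S F (P i) p ∧
        NearP S F' (P j) p) ∧ κ * T < ∑ p ∈ Q, Real.log p) ∧ HT r T P}.ncard : ℝ) ≤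
        C * Real.exp ((D - ν) * T)) :
    ∃ ν C : ℝ, 0 < ν ∧ ∀ U : ℝ, 0 ≤ U → {P | Coi r S i j F F' κ P ∧ HT r U P}.Finite ∧
      ({P | Coi r S i j F F' κ P ∧ HT r U P}.ncard : ℝ) ≤ C * Real.exp ((D - ν) * U) := by
  classical
  obtain ⟨ν₀, C₀, hν₀, h0⟩ := h
  obtain ⟨ν, hν⟩ : ∃ ν, ν = min ν₀ D := ⟨_, rfl⟩
  have hν0 : 0 < ν := by rw [hν]; exact lt_min hν₀ hD
  have hν1 : ν ≤ ν₀ := by rw [hν]; exact min_le_left _ _
  have hν2 : ν ≤ D := by rw [hν]; exact min_le_right _ _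
  obtain ⟨C, hC⟩ : ∃ C, C = |C₀| := ⟨_, rfl⟩
  have hC0 : 0 ≤ C := by rw [hC]; exact abs_nonneg _
  set B : ℕ → Set (Fin m → K[X]) := fun t =>
    {P : Fin m → K[X] | (∃ Q : Finset ℕ, (∀ p ∈ Q, p.Prime ∧ NearP S F (P i) p ∧
        NearP S F' (P j) p) ∧ κ * (t : ℝ) < ∑ p ∈ Q, Real.log p) ∧ HT r (t : ℝ) P} with hB
  have hBf : ∀ t, (B t).Finite := fun t => (h0 t (Nat.cast_nonneg _)).1
  have hBc : ∀ t : ℕ, ((B t).ncard : ℝ) ≤ C * Real.exp ((D - ν) * t) := by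
    intro t
    refine (h0 t (Nat.cast_nonneg _)).2.trans ?_
    have h1 : Real.exp ((D - ν₀) * t) ≤ Real.exp ((D - ν) * t) := by
      apply Real.exp_le_exp.2
      exact mul_le_mul_of_nonneg_right (by linarith) (Nat.cast_nonneg _)
    calc C₀ * Real.exp ((D - ν₀) * t) ≤ C * Real.exp ((D - ν₀) * t) :=
          mul_le_mul_of_nonneg_right (by rw [hC]; exact le_abs_self _) (Real.exp_pos _).le
      _ ≤ _ := mul_le_mul_of_nonneg_left h1 hC0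
  refine ⟨ν / 2, C * (2 / ν) * Real.exp (ν + D), by positivity, fun U hU => ?_⟩
  have hsub : {P | Coi r S i j F F' κ P ∧ HT r U P} ⊆ ⋃ t ∈ Finset.range (⌈U⌉₊ + 1), B t := by
    rintro P ⟨⟨t, h1, h2, Q, h3, h4⟩, h5⟩
    have h6 : t ≤ ⌈U⌉₊ := by
      by_contra hcon
      push Not at hcon
      exact h2 _ hcon (ht_mono r P (Nat.le_ceil U) h5)
    rw [Set.mem_iUnion₂]
    exact ⟨t, Finset.mem_range.2 (by omega), ⟨Q, h3, h4⟩, h1⟩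
  have hfin : (⋃ t ∈ Finset.range (⌈U⌉₊ + 1), B t).Finite :=
    (Finset.range (⌈U⌉₊ + 1)).finite_toSet.biUnion fun t _ => hBf t
  refine ⟨hfin.subset hsub, ?_⟩
  have h1 : ({P | Coi r S i j F F' κ P ∧ HT r U P}.ncard : ℝ) ≤
      ∑ t ∈ Finset.range (⌈U⌉₊ + 1), ((B t).ncard : ℝ) := by
    exact_mod_cast (Set.ncard_le_ncard hsub hfin).trans (Pool.Agent.N787.PC.Gcd.ncard_bU _ _)
  have h2 : (⌈U⌉₊ : ℝ) ≤ U + 1 := (Nat.ceil_lt_add_one hU).le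
  have h3 : ∀ t ∈ Finset.range (⌈U⌉₊ + 1), ((B t).ncard : ℝ) ≤
      C * Real.exp ((D - ν) * (U + 1)) := by
    intro t ht
    refine (hBc t).trans (mul_le_mul_of_nonneg_left ?_ hC0)
    apply Real.exp_le_exp.2
    refine mul_le_mul_of_nonneg_left ?_ (by linarith)
    have h4 : (t : ℝ) ≤ ⌈U⌉₊ := by
      have := Finset.mem_range.1 ht
      exact_mod_cast (by omega : t ≤ ⌈U⌉₊)
    linarith
  have h5 := Finset.sum_le_card_nsmul _ _ _ h3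
  rw [Finset.card_range, nsmul_eq_mul] at h5
  push_cast at h5
  have h6 : (⌈U⌉₊ : ℝ) + 1 ≤ (2 / ν) * Real.exp (ν / 2 * (U + 2)) := by
    have h7 := Real.add_one_le_exp (ν / 2 * (U + 2))
    have h8 : ν / 2 * (U + 2) ≤ Real.exp (ν / 2 * (U + 2)) := by linarith
    have h9 : (2 / ν) * (ν / 2 * (U + 2)) = U + 2 := by
      field_simp
    have h10 := mul_le_mul_of_nonneg_left h8 (by positivity : 0 ≤ 2 / ν)
    linarith
  calc ({P | Coi r S i j F F' κ P ∧ HT r U P}.ncard : ℝ) ≤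
        ((⌈U⌉₊ : ℝ) + 1) * (C * Real.exp ((D - ν) * (U + 1))) := h1.trans h5
    _ ≤ ((2 / ν) * Real.exp (ν / 2 * (U + 2))) * (C * Real.exp ((D - ν) * (U + 1))) :=
        mul_le_mul_of_nonneg_right h6 (by positivity)
    _ = C * (2 / ν) * (Real.exp (ν / 2 * (U + 2)) * Real.exp ((D - ν) * (U + 1))) := by ring
    _ ≤ C * (2 / ν) * (Real.exp (ν + D) * Real.exp ((D - ν / 2) * U)) := by
        refine mul_le_mul_of_nonneg_left ?_ (by positivity)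
        rw [← Real.exp_add, ← Real.exp_add]
        apply Real.exp_le_exp.2
        nlinarith
    _ = _ := by ring

/-- one exceptional set for all coincidences -/
theorem exc {m : ℕ} (hm : 1 ≤ m) (r : Fin m → ℕ) (hr : ∀ i, 1 ≤ r i) :
    ∃ (E : Set (Fin m → K[X])) (S : Fin m → Fin m → K[X] → K[X] → Finset ℕ),
      (∀ T : ℝ, 0 ≤ T → {P | P ∈ E ∧ HT r T P}.Finite ∧
        ({P | P ∈ E ∧ HT r T P}.ncard : ℝ) ≤
          Real.exp ((∑ i, (r i : ℝ) * (r i + 1)) * T - √T)) ∧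
      (∀ i j F F', ∀ p ∈ S i j F F', p ≠ 0) ∧
      ∀ i j : Fin m, i ≠ j → ∀ F F' : K[X], F ≠ 0 → F' ≠ 0 → ∀ κ : ℝ, 0 < κ →
        ∃ U : ℝ, 0 ≤ U ∧ ∀ P, P ∉ E → ¬ HT r U P → ∀ T : ℝ, 0 ≤ T → HT r T P →
          ∀ Q : Finset ℕ, (∀ p ∈ Q, p.Prime ∧ NearP (S i j F F') F (P i) p ∧
            NearP (S i j F F') F' (P j) p) → ∑ p ∈ Q, Real.log p ≤ κ * (T + 1) := by
  classical
  have hcount := Pool.Agent.N572.DR.KE.countable_pol K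
  obtain ⟨D, hD⟩ : ∃ D : ℝ, D = ∑ i, (r i : ℝ) * (r i + 1) := ⟨_, rfl⟩
  have hD0 : 0 < D := by
    rw [hD]
    have : Nonempty (Fin m) := ⟨⟨0, hm⟩⟩
    refine Finset.sum_pos (fun i _ => ?_) Finset.univ_nonempty
    have : (0 : ℝ) < r i := by exact_mod_cast hr i
    positivity
  have hco := fun (i j : Fin m) (F F' : K[X]) =>
    (show ∃ S : Finset ℕ, (∀ p ∈ S, p ≠ 0) ∧ (i ≠ j → F ≠ 0 → F' ≠ 0 → ∀ κ : ℝ, 0 < κ →
      ∃ ν C : ℝ, 0 < ν ∧ ∀ T : ℝ, 0 ≤ T →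
      {P : Fin m → K[X] | (∃ Q : Finset ℕ, (∀ p ∈ Q, p.Prime ∧ NearP S F (P i) p ∧
        NearP S F' (P j) p) ∧ κ * T < ∑ p ∈ Q, Real.log p) ∧ HT r T P}.Finite ∧
      ({P : Fin m → K[X] | (∃ Q : Finset ℕ, (∀ p ∈ Q, p.Prime ∧ NearP S F (P i) p ∧
        NearP S F' (P j) p) ∧ κ * T < ∑ p ∈ Q, Real.log p) ∧ HT r T P}.ncard : ℝ) ≤
        C * Real.exp ((D - ν) * T)) from by
      by_cases h : i ≠ j ∧ F ≠ 0 ∧ F' ≠ 0
      · obtain ⟨S, hS, hk⟩ := coin K m r hr i j h.1 F F' h.2.1 h.2.2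
        rw [← hD] at hk
        exact ⟨S, hS, fun _ _ _ => hk⟩
      · refine ⟨∅, by simp, fun h1 h2 h3 => absurd ⟨h1, h2, h3⟩ h⟩)
  choose S hS0 hS using hco
  obtain ⟨E, hE1, hE2⟩ := Pool.Agent.N572.DR.Diag.t (Fin m → K[X])
    (Fin m × Fin m × K[X] × K[X] × ℕ) (fun T P => HT r T P)
    (fun U U' P h hP => ht_mono r P h hP)
    (fun y P => y.1 ≠ y.2.1 ∧ y.2.2.1 ≠ 0 ∧ y.2.2.2.1 ≠ 0 ∧
      Coi r (S y.1 y.2.1 y.2.2.1 y.2.2.2.1) y.1 y.2.1 y.2.2.1 y.2.2.2.1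
        (1 / ((y.2.2.2.2 : ℝ) + 1)) P) D hD0 (by
    rintro ⟨i, j, F, F', n⟩
    by_cases h : i ≠ j ∧ F ≠ 0 ∧ F' ≠ 0
    · obtain ⟨ν, C, hν, hC⟩ := coi_count r (S i j F F') i j F F' (1 / ((n : ℝ) + 1)) D hD0
        (hS i j F F' h.1 h.2.1 h.2.2 _ (by positivity))
      refine ⟨ν, C, hν, fun U hU => ?_⟩
      have he : {P : Fin m → K[X] | (i ≠ j ∧ F ≠ 0 ∧ F' ≠ 0 ∧
          Coi r (S i j F F') i j F F' (1 / ((n : ℝ) + 1)) P) ∧ HT r U P} =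
          {P | Coi r (S i j F F') i j F F' (1 / ((n : ℝ) + 1)) P ∧ HT r U P} := by
        ext P
        simp only [Set.mem_ofPred_eq]
        tauto
      simp only [he]
      exact hC U hU
    · refine ⟨1, 0, one_pos, fun U hU => ?_⟩
      have he : {P : Fin m → K[X] | (i ≠ j ∧ F ≠ 0 ∧ F' ≠ 0 ∧
          Coi r (S i j F F') i j F F' (1 / ((n : ℝ) + 1)) P) ∧ HT r U P} = ∅ := by
        rw [Set.eq_empty_iff_forall_notMem]
        rintro P ⟨⟨h3, h4, h5, _⟩, _⟩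
        exact h ⟨h3, h4, h5⟩
      simp only [he]
      simp)
  refine ⟨E, S, fun T hT => ?_, fun i j F F' => hS0 i j F F', ?_⟩
  · rw [← hD]
    exact hE1 T hT
  intro i j hij F F' hF hF' κ hκ
  obtain ⟨n, hn⟩ := exists_nat_one_div_lt hκ
  obtain ⟨U, hU0, hU⟩ := hE2 (i, j, F, F', n)
  refine ⟨U, hU0, fun P hP hPU T hT hPT Q hQ => ?_⟩
  have hex : ∃ t : ℕ, HT r (t : ℝ) P := ⟨⌈T⌉₊, ht_mono r P (Nat.le_ceil T) hPT⟩
  have h1 := Nat.find_spec hex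
  have h2 : ∀ s : ℕ, s < Nat.find hex → ¬ HT r (s : ℝ) P := fun s hs => Nat.find_min hex hs
  have h3 : Nat.find hex ≤ ⌈T⌉₊ := Nat.find_min' hex (ht_mono r P (Nat.le_ceil T) hPT)
  have h4 : ((Nat.find hex : ℕ) : ℝ) ≤ T + 1 := by
    have h5 : ((Nat.find hex : ℕ) : ℝ) ≤ ⌈T⌉₊ := by exact_mod_cast h3
    have h6 := (Nat.ceil_lt_add_one hT).le
    linarith
  have h5 : ∑ p ∈ Q, Real.log p ≤ 1 / ((n : ℝ) + 1) * (Nat.find hex : ℕ) := by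
    by_contra hcon
    push Not at hcon
    exact hPU (hU P hP ⟨hij, hF, hF', Nat.find hex, h1, h2, Q, hQ, hcon⟩)
  refine h5.trans (mul_le_mul hn.le h4 (Nat.cast_nonneg _) hκ.le)

end Pool.Agent.L5helper18.PC
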