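import Mathlib
import Pool.Agent.L5helper18.PC.Tools
import Pool.Agent.Y557.OE.Pieces
import Pool.Agent.Y729.RV.Base

/-!
# Project PC: the inequality for one curve, with primes removed
-/

set_option autoImplicit false

namespace Pool.Agent.L5helper18.PC

open NumberField IsDedekindDomain Module Polynomial
open Pool.Agent.N753.DR (lN AtH)
open Pool.Agent.Y557.OE (Nz)
open Pool.Agent.W223.CV (cc ct cc_mono cc_or cc_exists)
open Pool.Agent.Y729.RV (cnt cnt_eq nr_fin Nr cnt_nonneg val_fin)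

/-- the roots of a polynomial have bounded height -/
theorem root_ht (G : ℚ[X]) (hG : G ≠ 0) : ∃ C : ℝ, 0 ≤ C ∧ ∀ (M : Type) [Field M] [NumberField M]
    (x : M), aeval x G = 0 → Height.logHeight₁ x ≤ finrank ℚ M * C := by
  classical
  induction G using WfDvdMonoid.induction_on_irreducible with
  | zero => exact absurd rfl hG
  | unit u hu =>
    refine ⟨0, le_rfl, ?_⟩
    intro M _ _ x hx
    exfalso
    have h1 : IsUnit (aeval x u) := hu.map (aeval x)
    rw [hx] at h1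
    exact not_isUnit_zero h1
  | mul a i ha hi ih =>
    obtain ⟨C1, hC1, h1⟩ := ih ha
    obtain ⟨C2, hC2, h2⟩ := Pool.Agent.N415.DRVK.conj_ht i hi
    refine ⟨C1 + C2, by positivity, ?_⟩
    intro M _ _ x hx
    have hd : (0 : ℝ) ≤ finrank ℚ M := Nat.cast_nonneg _
    rw [map_mul] at hx
    rcases mul_eq_zero.1 hx with h | h
    · have := h2 M x h
      nlinarith
    · have := h1 M x h
      nlinarith

/-- the pieces in `J` and the others -/
lemma cc_pieces {L : Type} [Field L] [NumberField L] {n : ℕ} (S : Finset ℕ) (J : Finset (Fin n))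
    (Q : Fin n → HeightOneSpectrum (𝓞 L) → Prop) (hQ : ∀ l, {v | Q l v}.Finite) :
    cc S (fun v => ∃ l ∈ (Finset.univ : Finset (Fin n)), Q l v) ≤
      cc S (fun v => ∃ l ∈ J, Q l v) + ∑ l ∈ Jᶜ, cc S (Q l) := by
  classical
  have hfin : ∀ I : Finset (Fin n), {v | ∃ l ∈ I, Q l v}.Finite := by
    intro I
    refine (Set.finite_iUnion fun l => hQ l).subset ?_
    rintro v ⟨l, -, hv⟩
    exact Set.mem_iUnion.mpr ⟨l, hv⟩
  have h1 := cc_mono (S := S) (le_refl S) (A := fun v => (∃ l ∈ J, Q l v) ∨ ∃ l ∈ Jᶜ, Q l v)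
    (A' := fun v => ∃ l ∈ (Finset.univ : Finset (Fin n)), Q l v) ((hfin J).union (hfin Jᶜ)) (by
      rintro v - ⟨l, -, hl⟩
      by_cases h : l ∈ J
      · exact Or.inl ⟨l, h, hl⟩
      · exact Or.inr ⟨l, Finset.mem_compl.mpr h, hl⟩)
  have h2 := cc_or S (hfin J) (hfin Jᶜ)
  have h3 := cc_exists S Jᶜ Q hQ
  linarith

theorem cc_nonneg {L : Type} [Field L] [NumberField L] (S : Finset ℕ)
    (Q : HeightOneSpectrum (𝓞 L) → Prop) : 0 ≤ cc S Q := by
  classical
  unfold cc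
  exact finsum_nonneg fun v => Pool.Agent.W223.CV.ct_nonneg S Q v

theorem sum_bU_le {ι α : Type} [DecidableEq ι] [DecidableEq α] (s : Finset ι) (t : ι → Finset α)
    (f : α → ℝ) (hf : ∀ x, 0 ≤ f x) : ∑ x ∈ s.biUnion t, f x ≤ ∑ i ∈ s, ∑ x ∈ t i, f x := by
  induction s using Finset.induction_on with
  | empty => simp
  | insert a s ha ih =>
    rw [Finset.biUnion_insert, Finset.sum_insert ha]
    have h1 := Finset.sum_union_inter (s₁ := t a) (s₂ := s.biUnion t) (f := f)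
    have h2 : 0 ≤ ∑ x ∈ t a ∩ s.biUnion t, f x := Finset.sum_nonneg fun x _ => hf x
    linarith

/-- removing primes from the counting function -/
theorem cnt_remove {K F : Type} [Field K] [NumberField K] [Field F] [NumberField F] [Algebra K F]
    {q : ℕ} (T Pc : Finset ℕ) (hPc : ∀ p ∈ Pc, p.Prime) (a : Fin q → K) (y : F)
    (hy : ∀ j, y ≠ algebraMap K F (a j)) :
    cnt T a y ≤ cnt (T ∪ Pc) a y + finrank ℚ F * ∑ p ∈ Pc, Real.log p := by
  classical
  rw [cnt_eq T hy, cnt_eq (T ∪ Pc) hy]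
  have h1 := Finset.sum_filter_add_sum_filter_not (nr_fin T hy).toFinset
    (fun w => ∃ p ∈ Pc, (p : 𝓞 F) ∈ w.asIdeal) (fun w => Real.log (Ideal.absNorm w.asIdeal : ℝ))
  rw [← h1]
  have h2 := sum_above Pc hPc ((nr_fin T hy).toFinset.filter
    (fun w => ∃ p ∈ Pc, (p : 𝓞 F) ∈ w.asIdeal)) (fun w hw => (Finset.mem_filter.1 hw).2)
  have h3 : ∑ w ∈ (nr_fin T hy).toFinset.filter (fun w => ¬ ∃ p ∈ Pc, (p : 𝓞 F) ∈ w.asIdeal),
      Real.log (Ideal.absNorm w.asIdeal : ℝ) ≤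
      ∑ w ∈ (nr_fin (T ∪ Pc) hy).toFinset, Real.log (Ideal.absNorm w.asIdeal : ℝ) := by
    refine Finset.sum_le_sum_of_subset_of_nonneg ?_ fun w _ _ => Real.log_natCast_nonneg _
    intro w hw
    rw [Finset.mem_filter, Set.Finite.mem_toFinset] at hw
    rw [Set.Finite.mem_toFinset]
    obtain ⟨⟨h4, h5⟩, h6⟩ := hw
    refine ⟨fun p hp => ?_, h5⟩
    rcases Finset.mem_union.1 hp with h | h
    · exact h4 p h
    · exact fun h7 => h6 ⟨p, h, h7⟩
  have h4 : ∑ w ∈ (nr_fin T hy).toFinset.filter (fun w => ∃ p ∈ Pc, (p : 𝓞 F) ∈ w.asIdeal),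
      Real.log (Ideal.absNorm w.asIdeal : ℝ) ≤ finrank ℚ F * ∑ p ∈ Pc, Real.log p := h2
  linarith

/-- the trivial bound -/
theorem cnt_triv {k : Type} [Field k] [NumberField k] {q : ℕ} (a : Fin q → k) :
    ∃ C : ℝ, 0 ≤ C ∧ ∀ (L : Type) [Field L] [NumberField L] [Algebra k L] (T : Finset ℕ) (x : L),
      (∀ j, x ≠ algebraMap k L (a j)) →
      cnt T a x ≤ q * (Height.logHeight₁ x + finrank ℚ L * C) := by
  classical
  choose C hC h using fun b : Fin q => Pool.Agent.N707.DRVkG.ht_lin (1 : k) (-a b)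
  have hCs : ∀ b, C b ≤ ∑ b, C b := fun b =>
    Finset.single_le_sum (f := C) (fun b _ => hC b) (Finset.mem_univ b)
  refine ⟨∑ b, C b, Finset.sum_nonneg fun b _ => hC b, ?_⟩
  intro L _ _ _ T x hx
  have hfd : FiniteDimensional k L := Module.Finite.of_restrictScalars_finite ℚ k L
  rw [cnt_eq T hx]
  have h1 : ∑ w ∈ (nr_fin T hx).toFinset, Real.log (Ideal.absNorm w.asIdeal : ℝ) ≤
      ∑ b : Fin q, ∑ w ∈ (nr_fin T hx).toFinset with
        w.valuation L (x - algebraMap k L (a b)) < 1, lN w := by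
    have h2 : (nr_fin T hx).toFinset ⊆ Finset.univ.biUnion fun b : Fin q =>
        (nr_fin T hx).toFinset.filter fun w => w.valuation L (x - algebraMap k L (a b)) < 1 := by
      intro w hw
      have hw' := hw
      rw [Set.Finite.mem_toFinset] at hw
      obtain ⟨-, -, b, hb⟩ := hw
      exact Finset.mem_biUnion.2 ⟨b, Finset.mem_univ _, Finset.mem_filter.2 ⟨hw', hb⟩⟩
    refine (Finset.sum_le_sum_of_subset_of_nonneg h2 fun w _ _ =>
      Real.log_natCast_nonneg _).trans ?_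
    exact sum_bU_le _ _ _ fun w => Real.log_natCast_nonneg _
  refine h1.trans ?_
  have h3 : ∀ b : Fin q, ∑ w ∈ (nr_fin T hx).toFinset with
        w.valuation L (x - algebraMap k L (a b)) < 1, lN w ≤
      Height.logHeight₁ x + finrank ℚ L * ∑ b, C b := by
    intro b
    have h4 := Pool.Agent.N415.DRVK.wt_le (sub_ne_zero.2 (hx b)) ((nr_fin T hx).toFinset.filter
      fun w => w.valuation L (x - algebraMap k L (a b)) < 1) (fun w hw => (Finset.mem_filter.1 hw).2)
    have h5 := h b L x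
    rw [map_one, one_mul, map_neg, ← sub_eq_add_neg] at h5
    have h6 : (finrank k L : ℝ) * C b ≤ finrank ℚ L * ∑ b, C b := by
      have h7 : (finrank k L : ℝ) ≤ finrank ℚ L := by
        rw [← Module.finrank_mul_finrank ℚ k L]
        exact_mod_cast Nat.le_mul_of_pos_left _ finrank_pos
      exact mul_le_mul h7 (hCs b) (hC b) (Nat.cast_nonneg _)
    linarith
  refine (Finset.sum_le_card_nsmul _ _ _ fun b _ => h3 b).trans (le_of_eq ?_)
  rw [Finset.card_univ, Fintype.card_fin, nsmul_eq_mul]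

theorem adjoin_gen {k L : Type} [Field k] [NumberField k] [Field L] [NumberField L] [Algebra k L]
    (x : L) : IntermediateField.adjoin k {IntermediateField.AdjoinSimple.gen k x} = ⊤ := by
  have hi : IsIntegral k x := by
    have : FiniteDimensional k L := Module.Finite.of_restrictScalars_finite ℚ k L
    exact IsIntegral.of_finite k x
  have hfd : FiniteDimensional k (IntermediateField.adjoin k {x}) :=
    Module.Finite.of_restrictScalars_finite ℚ k _
  rw [Field.primitive_element_iff_minpoly_natDegree_eq, IntermediateField.minpoly_gen,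
    IntermediateField.adjoin.finrank hi]

/-- **one curve** -/
theorem oneCurve (K : Type) [Field K] [NumberField K] (r : ℕ) (E₁ : Set K[X])
    (hmain : ∀ (k : Type) [Field k] [NumberField k] [Algebra K k] (q : ℕ) (a : Fin q → k),
      Function.Injective a → (∀ j, (minpoly K (a j)).natDegree ≤ 2 * r + 1) → ∀ (S : Finset ℕ)
      (κ : ℝ), 0 < κ → ∃ C : ℝ, ∀ (M : Type) [Field M] [NumberField M] [Algebra K M] [Algebra k M]
        [IsScalarTower K k M] (x : M), IntermediateField.adjoin k {x} = ⊤ →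
        (minpoly K x).natDegree = r → minpoly K x ∉ E₁ → (∀ j, x ≠ algebraMap k M (a j)) →
        ∀ W : Finset (HeightOneSpectrum (𝓞 M)),
          (∀ w, (∀ p ∈ S, p ≠ 0 → (p : 𝓞 M) ∉ w.asIdeal) → w.valuation M x ≤ 1 →
            (∃ j, w.valuation M (x - algebraMap k M (a j)) < 1) → w ∈ W) →
          (q - κ) * Height.logHeight₁ x ≤ ∑ w ∈ W, lN w + C)
    (k : Type) [Field k] [NumberField k] [Algebra K k] (q : ℕ) (a : Fin q → k)
    (ha : Function.Injective a) (hadeg : ∀ i, (minpoly K (a i)).natDegree ≤ 2 * r + 1)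
    (A : Type) [CommRing A] [IsDedekindDomain A] [Algebra k A] [Algebra k[X] A]
    [IsScalarTower k k[X] A] [Module.Finite k[X] A] [FaithfulSMul k[X] A] (n : ℕ)
    (j : Fin n → Fin q) (s : Fin n → ℕ) (z : ∀ l, Fin (s l + 1) → A)
    (hz0 : ∀ l, z l 0 = algebraMap k[X] A X - algebraMap k A (a (j l)))
    (hcov : ∀ i, ∏ l with j l = i, Ideal.span (Set.range (z l)) ≤
      (Ideal.span {algebraMap k[X] A X - algebraMap k A (a i)}).radical)
    (S : Finset ℕ) (ε : ℝ) (hε : 0 < ε) :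
    ∃ M₀ : ℕ, M₀ ≠ 0 ∧ ∀ T₀ : Finset ℕ, M₀.primeFactors ∪ S ⊆ T₀ → (∀ p ∈ T₀, p ≠ 0) →
      ∃ C : ℝ, 0 ≤ C ∧ ∀ (L : Type) [Field L] [NumberField L] [Algebra K L] [Algebra k L]
        [IsScalarTower K k L] (φ : A →ₐ[k] L) (x : L), φ (algebraMap k[X] A X) = x →
        (minpoly K x).natDegree = r → minpoly K x ∉ E₁ → (∀ b, x ≠ algebraMap k L (a b)) →
        (∀ l, {v : HeightOneSpectrum (𝓞 L) | Nz k (z l) (φ : A →+* L) v}.Finite) ∧
        ∀ e : Fin n → ℕ, (∀ l, 1 ≤ e l) →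
          (∀ v : HeightOneSpectrum (𝓞 L), (∀ p ∈ S, (p : 𝓞 L) ∉ v.asIdeal) → ∀ l,
            Nz k (z l) (φ : A →+* L) v →
            ∀ i, v.valuation L (φ (z l i)) ≤ WithZero.exp (-((e l : ℕ) : ℤ))) →
          ∀ (J : Finset (Fin n)) (Pc : Finset ℕ), (∀ p ∈ Pc, p.Prime) →
          (q - (∑ l ∈ Jᶜ, (Module.finrank k (A ⧸ Ideal.span (Set.range (z l))) : ℝ) /
              (e l * Module.finrank k[X] A)) - ε) * Height.logHeight₁ x ≤
            cc (T₀ ∪ Pc) (fun v => ∃ l ∈ J, Nz k (z l) (φ : A →+* L) v) +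
            ((finrank (IntermediateField.adjoin k {x}) L : ℝ) *
              cnt (T₀ ∪ Pc) a (IntermediateField.AdjoinSimple.gen k x) - cnt (T₀ ∪ Pc) a x) +
            finrank ℚ L * (C + ∑ p ∈ Pc, Real.log p) := by
  classical
  have hn1 : (0 : ℝ) < (n : ℝ) + 1 := by positivity
  obtain ⟨ε', hε'⟩ : ∃ ε' : ℝ, ε' = ε / 2 := ⟨_, rfl⟩
  have hε'0 : 0 < ε' := by rw [hε']; positivity
  obtain ⟨M₀, Ck, G, hM₀, hCk, hG, hkey⟩ := Pool.Agent.Y557.OE.keyP k A a j s z hz0 hcov
    (ε' / (n + 1)) (by positivity)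
  obtain ⟨CG, hCG, hroot⟩ := root_ht G hG
  obtain ⟨Ct, hCt, htriv⟩ := cnt_triv a
  refine ⟨M₀, hM₀, fun T₀ hT₀ hT₀p => ?_⟩
  obtain ⟨C₀, hC₀⟩ := hmain k q a ha hadeg T₀ ε' hε'0
  have hq0 : (0 : ℝ) ≤ q := Nat.cast_nonneg _
  refine ⟨n * Ck + |C₀| + q * CG + q * (CG + Ct), by positivity, ?_⟩
  intro L _ _ _ _ _ φ x hφ hxr hxE hxa
  have hfin : ∀ l, {v : HeightOneSpectrum (𝓞 L) | Nz k (z l) (φ : A →+* L) v}.Finite := by
    intro l
    refine (val_fin (sub_ne_zero.2 (hxa (j l)))).subset ?_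
    rintro v ⟨-, hv⟩
    have h1 := hv 0
    have h2 : (φ : A →+* L) (z l 0) = x - algebraMap k L (a (j l)) := by
      rw [hz0 l, map_sub]
      show φ (algebraMap k[X] A X) - φ (algebraMap k A (a (j l))) = _
      rw [hφ, φ.commutes]
    rw [h2] at h1
    exact h1
  refine ⟨hfin, ?_⟩
  intro e he hint J Pc hPc
  have hLpos : (0 : ℝ) < Module.finrank ℚ L := by exact_mod_cast Module.finrank_pos
  obtain ⟨H, hH⟩ : ∃ H : ℝ, H = Height.logHeight₁ x := ⟨_, rfl⟩
  have hH0 : 0 ≤ H := by rw [hH]; exact Height.zero_le_logHeight₁ x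
  rw [← hH]
  have hPc0 : 0 ≤ ∑ p ∈ Pc, Real.log (p : ℝ) :=
    Finset.sum_nonneg fun p _ => Real.log_natCast_nonneg p
  have hsum0 : 0 ≤ ∑ l ∈ Jᶜ, (Module.finrank k (A ⧸ Ideal.span (Set.range (z l))) : ℝ) /
      (e l * Module.finrank k[X] A) := Finset.sum_nonneg fun l _ => by positivity
  obtain ⟨g, hg⟩ : ∃ g : ℝ, g = q - ∑ l ∈ Jᶜ,
    (Module.finrank k (A ⧸ Ideal.span (Set.range (z l))) : ℝ) /
      (e l * Module.finrank k[X] A) := ⟨_, rfl⟩
  rw [← hg]
  have hgq : g ≤ q := by rw [hg]; linarith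
  obtain ⟨T, hT⟩ : ∃ T : ℝ, T = cc (T₀ ∪ Pc) (fun v => ∃ l ∈ J, Nz k (z l) (φ : A →+* L) v) :=
    ⟨_, rfl⟩
  have hT0 : 0 ≤ T := by rw [hT]; exact cc_nonneg _ _
  rw [← hT]
  obtain ⟨M, hM⟩ : ∃ M : IntermediateField k L, M = IntermediateField.adjoin k {x} := ⟨_, rfl⟩
  obtain ⟨mL, hmL⟩ : ∃ mL : ℝ, mL = (finrank (IntermediateField.adjoin k {x}) L : ℝ) := ⟨_, rfl⟩
  have hmL0 : 0 ≤ mL := by rw [hmL]; exact Nat.cast_nonneg _
  rw [← hmL]
  have hcM0 : 0 ≤ cnt (T₀ ∪ Pc) a (IntermediateField.AdjoinSimple.gen k x) := cnt_nonneg _ _ _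
  have hcM1 : 0 ≤ mL * cnt (T₀ ∪ Pc) a (IntermediateField.AdjoinSimple.gen k x) :=
    mul_nonneg hmL0 hcM0
  have hnCk : 0 ≤ (n : ℝ) * Ck := by positivity
  have habs := abs_nonneg C₀
  by_cases hGx : aeval x G = 0
  · have h1 : H ≤ finrank ℚ L * CG := by rw [hH]; exact hroot L x hGx
    have h2 := htriv L (T₀ ∪ Pc) x hxa
    rw [← hH] at h2
    have h3 : (g - ε) * H ≤ q * H := mul_le_mul_of_nonneg_right (by linarith) hH0
    have h4 : (q : ℝ) * H ≤ q * (finrank ℚ L * CG) := mul_le_mul_of_nonneg_left h1 hq0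
    have h5 : (q : ℝ) * (H + finrank ℚ L * Ct) ≤ q * (finrank ℚ L * CG + finrank ℚ L * Ct) :=
      mul_le_mul_of_nonneg_left (by linarith) hq0
    have h6 : 0 ≤ (finrank ℚ L : ℝ) * (n * Ck + |C₀| + ∑ p ∈ Pc, Real.log (p : ℝ)) := by positivity
    nlinarith
  -- the field `k(x)`
  have hgen : algebraMap (IntermediateField.adjoin k {x}) L
      (IntermediateField.AdjoinSimple.gen k x) = x := IntermediateField.AdjoinSimple.algebraMap_gen k x
  have hst : IsScalarTower K (IntermediateField.adjoin k {x}) L :=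
    IsScalarTower.of_algebraMap_eq fun _ => rfl
  have hminy : minpoly K (IntermediateField.AdjoinSimple.gen k x) = minpoly K x := by
    rw [← minpoly.algebraMap_eq (algebraMap (IntermediateField.adjoin k {x}) L).injective
      (IntermediateField.AdjoinSimple.gen k x), hgen]
  have hya : ∀ b, IntermediateField.AdjoinSimple.gen k x ≠
      algebraMap k (IntermediateField.adjoin k {x}) (a b) := by
    intro b h
    apply hxa b
    rw [← hgen, h, ← IsScalarTower.algebraMap_apply]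
  have hMd : (finrank ℚ L : ℝ) = (finrank ℚ (IntermediateField.adjoin k {x}) : ℝ) * mL := by
    rw [hmL]
    exact_mod_cast (Module.finrank_mul_finrank ℚ (IntermediateField.adjoin k {x}) L).symm
  have hHy : H = mL * Height.logHeight₁ (IntermediateField.AdjoinSimple.gen k x) := by
    rw [hH, hmL, ← Pool.Agent.N572.DR.Inv.ht_ext, hgen]
  have h1 : ((q : ℝ) - ε') * Height.logHeight₁ (IntermediateField.AdjoinSimple.gen k x) ≤
      cnt T₀ a (IntermediateField.AdjoinSimple.gen k x) + C₀ := by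
    rw [cnt_eq T₀ hya]
    refine hC₀ (IntermediateField.adjoin k {x}) (IntermediateField.AdjoinSimple.gen k x)
      (adjoin_gen x) (by rw [hminy]; exact hxr) (by rw [hminy]; exact hxE) hya _ ?_
    intro w h1 h2 h3
    rw [Set.Finite.mem_toFinset]
    exact ⟨fun p hp => h1 p hp (hT₀p p hp), h2, h3⟩
  have h2 := cnt_remove T₀ Pc hPc a (IntermediateField.AdjoinSimple.gen k x) hya
  have h3 : ((q : ℝ) - ε') * H ≤ mL * cnt (T₀ ∪ Pc) a (IntermediateField.AdjoinSimple.gen k x) +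
      finrank ℚ L * (|C₀| + ∑ p ∈ Pc, Real.log (p : ℝ)) := by
    have h4 := mul_le_mul_of_nonneg_left (h1.trans (add_le_add_left h2 C₀)) hmL0
    have h5 : mL * C₀ ≤ finrank ℚ L * |C₀| := by
      have h6 : mL * C₀ ≤ mL * |C₀| := mul_le_mul_of_nonneg_left (le_abs_self _) hmL0
      have h7 : (1 : ℝ) ≤ finrank ℚ (IntermediateField.adjoin k {x}) := by
        exact_mod_cast (Module.finrank_pos (R := ℚ) (M := IntermediateField.adjoin k {x}))
      have h8 : mL * |C₀| ≤ finrank ℚ L * |C₀| := by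
        rw [hMd]
        refine mul_le_mul_of_nonneg_right ?_ habs
        nlinarith
      linarith
    have h9 : mL * (((q : ℝ) - ε') * Height.logHeight₁ (IntermediateField.AdjoinSimple.gen k x)) =
        ((q : ℝ) - ε') * H := by
      rw [hHy]; ring
    rw [h9] at h4
    rw [hMd] at h5 ⊢
    nlinarith
  -- the pieces
  have hφ' : φ (algebraMap k[X] A X) = x := hφ
  obtain ⟨-, hk1, hk2⟩ := hkey L φ (by
    rw [hφ']
    exact hGx) (by
    intro b
    rw [hφ']
    exact hxa b)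
  have hk1 := hk1 (T₀ ∪ Pc)
  have hTT : M₀.primeFactors ∪ (T₀ ∪ Pc) = T₀ ∪ Pc := by
    rw [Finset.union_eq_right]
    exact (Finset.subset_union_left.trans hT₀).trans Finset.subset_union_left
  rw [hφ', hTT] at hk1
  have h8 := cc_pieces (T₀ ∪ Pc) J (fun l (v : HeightOneSpectrum (𝓞 L)) =>
    Nz k (z l) (φ : A →+* L) v) hfin
  rw [← hT] at h8
  have hSub : S ⊆ T₀ ∪ Pc := (Finset.subset_union_right.trans hT₀).trans Finset.subset_union_left
  have h5 : ∀ l, cc (T₀ ∪ Pc) (fun v : HeightOneSpectrum (𝓞 L) => Nz k (z l) (φ : A →+* L) v) ≤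
      ((Module.finrank k (A ⧸ Ideal.span (Set.range (z l))) : ℝ) /
        (e l * Module.finrank k[X] A) + ε' / (n + 1)) * H + Ck * finrank ℚ L := by
    intro l
    have he1 : (1 : ℝ) ≤ e l := by exact_mod_cast he l
    have h9 := hk2 l (T₀ ∪ Pc) (e l) (fun v hv hnear i => hint v (fun p hp => hv p (hSub hp)) l hnear i)
    rw [hφ', ← Height.logHeight₁_eq_log_mulHeight₁, ← hH] at h9
    have he0 : (0 : ℝ) < e l := by linarith
    refine le_of_mul_le_mul_left (h9.trans ?_) he0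
    have h12 : (e l : ℝ) * (((Module.finrank k (A ⧸ Ideal.span (Set.range (z l))) : ℝ) /
        (e l * Module.finrank k[X] A) + ε' / (n + 1)) * H + Ck * finrank ℚ L) =
        (Module.finrank k (A ⧸ Ideal.span (Set.range (z l))) : ℝ) / Module.finrank k[X] A * H +
          e l * (ε' / (n + 1) * H + Ck * finrank ℚ L) := by
      rw [mul_comm (e l : ℝ) (Module.finrank k[X] A : ℝ), ← div_div]
      field_simp
      ring
    rw [h12]
    have h13 : 0 ≤ ε' / (n + 1) * H + Ck * finrank ℚ L := by positivity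
    nlinarith
  have h6 := Finset.sum_le_sum fun l (_ : l ∈ Jᶜ) => h5 l
  have hJ : ((Jᶜ.card : ℕ) : ℝ) ≤ n := by
    have := Finset.card_le_univ Jᶜ
    rw [Fintype.card_fin] at this
    exact_mod_cast this
  have hgs : ∑ l ∈ Jᶜ, (Module.finrank k (A ⧸ Ideal.span (Set.range (z l))) : ℝ) /
      (e l * Module.finrank k[X] A) = q - g := by rw [hg]; ring
  have h7 : ∑ l ∈ Jᶜ, (((Module.finrank k (A ⧸ Ideal.span (Set.range (z l))) : ℝ) /
        (e l * Module.finrank k[X] A) + ε' / (n + 1)) * H + Ck * finrank ℚ L) ≤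
      (q - g + ε') * H + n * Ck * finrank ℚ L := by
    rw [Finset.sum_add_distrib, ← Finset.sum_mul, Finset.sum_add_distrib, Finset.sum_const,
      Finset.sum_const, nsmul_eq_mul, nsmul_eq_mul, hgs]
    have h10 : ((Jᶜ.card : ℕ) : ℝ) * (ε' / (n + 1)) ≤ ε' := by
      rw [mul_div_assoc', div_le_iff₀ hn1]
      nlinarith
    have h11 := mul_le_mul_of_nonneg_right h10 hH0
    have h12 : ((Jᶜ.card : ℕ) : ℝ) * (Ck * finrank ℚ L) ≤ n * (Ck * finrank ℚ L) :=
      mul_le_mul_of_nonneg_right hJ (by positivity)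
    nlinarith
  have h9 : cnt (T₀ ∪ Pc) a x ≤ T + ((q - g + ε') * H + n * Ck * finrank ℚ L) := by
    linarith
  have h10 : 0 ≤ (finrank ℚ L : ℝ) * (q * CG + q * (CG + Ct)) := by positivity
  have h11 : (g - ε) * H = ((q : ℝ) - ε') * H - (q - g + ε') * H := by
    rw [hε']; ring
  rw [h11]
  nlinarith

end Pool.Agent.L5helper18.PC
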