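import Mathlib
import Pool.Agent.L5helper18.PC.Exc
import Pool.Agent.L5helper18.PC.One
import Pool.Agent.N31.FR.Tot
import Pool.Agent.N901.PC.Comb

/-!
# Project PC: counting, disjoint sets of primes, coincidences
-/

set_option autoImplicit false

namespace Pool.Agent.L5helper18.PC

open NumberField IsDedekindDomain Module Polynomial
open Pool.Agent.N753.DR (lN AtH HT NearP Near)
open Pool.Agent.W223.CV (cc ct cc_mono)
open Pool.Agent.Y729.RV (cnt cnt_eq nr_fin Nr cnt_nonneg)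

section count

variable {K : Type} [Field K] [NumberField K]

theorem all_count {m : ℕ} (r : Fin m → ℕ) (hr : ∀ i, 1 ≤ r i) (E₁ : Fin m → Set K[X])
    (hE₁ : ∀ i, ∀ U : ℝ, 0 ≤ U → {p | p ∈ E₁ i ∧ AtH (r i) U p}.Finite ∧
      ({p | p ∈ E₁ i ∧ AtH (r i) U p}.ncard : ℝ) ≤ Real.exp ((r i + 1) * U - √U))
    (E₀ : Set (Fin m → K[X])) (hE₀ : ∀ T : ℝ, 0 ≤ T → {P | P ∈ E₀ ∧ HT r T P}.Finite ∧
      ({P | P ∈ E₀ ∧ HT r T P}.ncard : ℝ) ≤
        Real.exp ((∑ i, (r i : ℝ) * (r i + 1)) * T - √T)) :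
    ∃ C : ℝ, 0 ≤ C ∧ ∀ T : ℝ, 0 ≤ T →
      {P | P ∈ (E₀ ∪ {P | ∃ i, P i ∈ E₁ i}) ∧ HT r T P}.Finite ∧
      ({P | P ∈ (E₀ ∪ {P | ∃ i, P i ∈ E₁ i}) ∧ HT r T P}.ncard : ℝ) ≤
        C * Real.exp ((∑ i, (r i : ℝ) * (r i + 1)) * T - √T) := by
  classical
  choose D₀ hD₀ hcnt using fun i => Pool.Agent.N130.PC.Cnt.t K (r i) (hr i)
  obtain ⟨D, hD⟩ : ∃ D : Fin m → ℝ, D = fun i => D₀ i + 1 := ⟨_, rfl⟩
  have hD1 : ∀ i, 1 ≤ D i := fun i => by rw [hD]; linarith [hD₀ i]
  have hD0 : ∀ i, 0 ≤ D i := fun i => by linarith [hD1 i]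
  have hDp : 0 ≤ ∏ i, D i := Finset.prod_nonneg fun i _ => hD0 i
  refine ⟨1 + m * ∏ i, D i, by positivity, fun T hT => ?_⟩
  have hrT : ∀ i, 0 ≤ (r i : ℝ) * T := fun i => by positivity
  have hf : ∀ i, {p : K[X] | AtH (r i) (r i * T) p}.Finite := fun i => (hcnt i _ (hrT i)).1
  have hc : ∀ i, ((hf i).toFinset.card : ℝ) ≤ D i * Real.exp ((r i : ℝ) * (r i + 1) * T) := by
    intro i
    have h1 := (hcnt i _ (hrT i)).2
    rw [Set.ncard_eq_toFinset_card _ (hf i)] at h1
    refine h1.trans ?_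
    have h2 : ((r i : ℝ) + 1) * (r i * T) = (r i : ℝ) * (r i + 1) * T := by ring
    rw [h2]
    refine mul_le_mul_of_nonneg_right ?_ (Real.exp_pos _).le
    rw [hD]
    linarith
  have hf1 : ∀ i, {p : K[X] | p ∈ E₁ i ∧ AtH (r i) (r i * T) p}.Finite :=
    fun i => (hE₁ i _ (hrT i)).1
  have hc1 : ∀ i, ((hf1 i).toFinset.card : ℝ) ≤
      D i * Real.exp ((r i : ℝ) * (r i + 1) * T) * Real.exp (-√T) := by
    intro i
    have h1 := (hE₁ i _ (hrT i)).2
    rw [Set.ncard_eq_toFinset_card _ (hf1 i)] at h1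
    refine h1.trans ?_
    rw [mul_assoc, ← Real.exp_add]
    have h3 : √T ≤ √((r i : ℝ) * T) := by
      apply Real.sqrt_le_sqrt
      have : (1 : ℝ) ≤ r i := by exact_mod_cast hr i
      nlinarith
    have h4 : Real.exp (((r i : ℝ) + 1) * (r i * T) - √((r i : ℝ) * T)) ≤
        Real.exp ((r i : ℝ) * (r i + 1) * T + -√T) := by
      apply Real.exp_le_exp.2
      have h2 : ((r i : ℝ) + 1) * (r i * T) = (r i : ℝ) * (r i + 1) * T := by ring
      rw [h2]
      linarith
    refine h4.trans ?_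
    have h5 := Real.exp_pos ((r i : ℝ) * (r i + 1) * T + -√T)
    nlinarith [hD1 i]
  set Z : Fin m → Finset (Fin m → K[X]) := fun i =>
    Fintype.piFinset fun l => if l = i then (hf1 l).toFinset else (hf l).toFinset with hZ
  have hZc : ∀ i, ((Z i).card : ℝ) ≤
      (∏ l, D l) * Real.exp ((∑ l, (r l : ℝ) * (r l + 1)) * T - √T) := by
    intro i
    rw [hZ]
    beta_reduce
    rw [Fintype.card_piFinset]
    push_cast
    have h1 : ∀ l ∈ (Finset.univ : Finset (Fin m)),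
        (((if l = i then (hf1 l).toFinset else (hf l).toFinset).card : ℕ) : ℝ) ≤
        (D l * Real.exp ((r l : ℝ) * (r l + 1) * T)) * (if l = i then Real.exp (-√T) else 1) := by
      intro l _
      split_ifs with h
      · exact hc1 l
      · rw [mul_one]
        exact hc l
    refine (Finset.prod_le_prod (fun l _ => Nat.cast_nonneg _) h1).trans (le_of_eq ?_)
    rw [Finset.prod_mul_distrib, Finset.prod_mul_distrib, Finset.prod_ite_eq' Finset.univ i,
      if_pos (Finset.mem_univ i), ← Real.exp_sum, ← Finset.sum_mul, mul_assoc, ← Real.exp_add]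
    rfl
  have hsub : {P | P ∈ (E₀ ∪ {P | ∃ i, P i ∈ E₁ i}) ∧ HT r T P} ⊆
      {P | P ∈ E₀ ∧ HT r T P} ∪ ⋃ i ∈ (Finset.univ : Finset (Fin m)), (Z i : Set (Fin m → K[X])) := by
    rintro P ⟨h1 | ⟨i, h1⟩, h2⟩
    · exact Or.inl ⟨h1, h2⟩
    · right
      rw [Set.mem_iUnion₂]
      refine ⟨i, Finset.mem_univ i, ?_⟩
      rw [Finset.mem_coe, hZ]
      beta_reduce
      rw [Fintype.mem_piFinset]
      intro l
      split_ifs with h
      · rw [Set.Finite.mem_toFinset]
        refine ⟨?_, h2 l⟩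
        rw [h]
        exact h1
      · rw [Set.Finite.mem_toFinset]
        exact h2 l
  have hfin : ({P | P ∈ E₀ ∧ HT r T P} ∪
      ⋃ i ∈ (Finset.univ : Finset (Fin m)), (Z i : Set (Fin m → K[X]))).Finite :=
    (hE₀ T hT).1.union (Finset.finite_toSet _ |>.biUnion fun i _ => (Z i).finite_toSet)
  refine ⟨hfin.subset hsub, ?_⟩
  have h1 : (({P | P ∈ (E₀ ∪ {P | ∃ i, P i ∈ E₁ i}) ∧ HT r T P}.ncard : ℕ) : ℝ) ≤
      ({P | P ∈ E₀ ∧ HT r T P}.ncard : ℝ) + ∑ i, ((Z i).card : ℝ) := by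
    have h2 := (Set.ncard_le_ncard hsub hfin).trans ((Set.ncard_union_le _ _).trans
      (Nat.add_le_add_left (Pool.Agent.N787.PC.Gcd.ncard_bU _ _) _))
    simp only [Set.ncard_coe_finset] at h2
    exact_mod_cast h2
  refine h1.trans ?_
  have h3 := Finset.sum_le_card_nsmul (Finset.univ : Finset (Fin m)) _ _ fun i _ => hZc i
  rw [Finset.card_univ, Fintype.card_fin, nsmul_eq_mul] at h3
  have h4 := (hE₀ T hT).2
  linarith

/-- the lower bound for the number of tuples -/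
theorem lower {m : ℕ} (r : Fin m → ℕ) (hr : ∀ i, 1 ≤ r i) :
    ∃ c T₀ : ℝ, 0 < c ∧ ∀ T : ℝ, T₀ ≤ T → ∃ Z : Finset (Fin m → K[X]), (∀ P ∈ Z, HT r T P) ∧
      c * Real.exp ((∑ i, (r i : ℝ) * (r i + 1)) * T) ≤ Z.card := by
  classical
  choose c U₀ hc h using fun i => Pool.Agent.N31.FR.t K (r i) (hr i)
  refine ⟨∏ i, c i, ∑ i, |U₀ i|, Finset.prod_pos fun i _ => hc i, fun T hT => ?_⟩
  have hU : ∀ i, U₀ i ≤ r i * T := by
    intro i
    have h1 : |U₀ i| ≤ ∑ i, |U₀ i| :=
      Finset.single_le_sum (f := fun i => |U₀ i|) (fun _ _ => abs_nonneg _) (Finset.mem_univ i)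
    have h2 := le_abs_self (U₀ i)
    have h3 := abs_nonneg (U₀ i)
    have h4 : (1 : ℝ) ≤ r i := by exact_mod_cast hr i
    nlinarith
  choose Z hZ hZc using fun i => h i (r i * T) (hU i)
  refine ⟨Fintype.piFinset Z, fun P hP i => hZ i _ (Fintype.mem_piFinset.1 hP i), ?_⟩
  rw [Fintype.card_piFinset, Finset.sum_mul, Real.exp_sum, ← Finset.prod_mul_distrib]
  push_cast
  refine Finset.prod_le_prod (fun i _ => mul_nonneg (hc i).le (Real.exp_pos _).le) fun i _ => ?_
  refine le_trans (le_of_eq ?_) (hZc i)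
  congr 2
  ring

end count

section primes

variable {L : Type} [Field L] [NumberField L]

/-- disjoint sets of primes -/
theorem cc_disj {m : ℕ} {S T : Finset ℕ} (hST : S ⊆ T)
    (B : Fin m → HeightOneSpectrum (𝓞 L) → Prop) (hfin : ∀ i, {v | B i v}.Finite)
    (hdis : ∀ i j, i ≠ j → ∀ v : HeightOneSpectrum (𝓞 L), (∀ p ∈ T, (p : 𝓞 L) ∉ v.asIdeal) →
      B i v → B j v → False) : ∑ i, cc T (B i) ≤ cc S (fun v => ∃ i, B i v) := by
  classical
  have hf : {v | ∃ i, B i v}.Finite := by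
    refine (Set.finite_iUnion hfin).subset ?_
    rintro v ⟨i, hi⟩
    exact Set.mem_iUnion.2 ⟨i, hi⟩
  have h1 : cc T (fun v => ∃ i, B i v) ≤ cc S (fun v => ∃ i, B i v) :=
    cc_mono hST hf fun v _ h => h
  refine le_trans (le_of_eq ?_) h1
  have h2 : ∀ i, cc T (B i) = ∑ v ∈ hf.toFinset, ct T (B i) v := by
    intro i
    unfold cc
    refine finsum_eq_sum_of_support_subset _ fun v hv => ?_
    rw [Function.mem_support] at hv
    rw [Set.Finite.coe_toFinset]
    by_contra hcon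
    exact hv (Pool.Agent.W223.CV.ct_neg fun h => hcon ⟨i, h.2⟩)
  have h3 : cc T (fun v => ∃ i, B i v) = ∑ v ∈ hf.toFinset, ct T (fun v => ∃ i, B i v) v := by
    unfold cc
    refine finsum_eq_sum_of_support_subset _ fun v hv => ?_
    rw [Function.mem_support] at hv
    rw [Set.Finite.coe_toFinset]
    by_contra hcon
    exact hv (Pool.Agent.W223.CV.ct_neg fun h => hcon h.2)
  rw [h3, Finset.sum_congr rfl fun i _ => h2 i, Finset.sum_comm]
  refine Finset.sum_congr rfl fun v _ => ?_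
  by_cases hT : ∀ p ∈ T, (p : 𝓞 L) ∉ v.asIdeal
  · by_cases hv : ∃ i, B i v
    · obtain ⟨i, hi⟩ := hv
      rw [Finset.sum_eq_single i]
      · rw [Pool.Agent.W223.CV.ct_pos ⟨hT, hi⟩,
          Pool.Agent.W223.CV.ct_pos (A := fun v => ∃ i, B i v) ⟨hT, ⟨i, hi⟩⟩]
      · intro j _ hj
        exact Pool.Agent.W223.CV.ct_neg fun h => hdis j i hj v hT h.2 hi
      · intro h
        exact absurd (Finset.mem_univ i) h
    · rw [Pool.Agent.W223.CV.ct_neg (A := fun v => ∃ i, B i v) fun h => hv h.2]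
      refine Finset.sum_eq_zero fun i _ => ?_
      exact Pool.Agent.W223.CV.ct_neg fun h => hv ⟨i, h.2⟩
  · rw [Pool.Agent.W223.CV.ct_neg (A := fun v => ∃ i, B i v) fun h => hT h.1]
    refine Finset.sum_eq_zero fun i _ => ?_
    exact Pool.Agent.W223.CV.ct_neg fun h => hT h.1

/-- ramification -/
theorem combine {k : Type} [Field k] [NumberField k] [Algebra k L] {m : ℕ} (q : Fin m → ℕ)
    (a : ∀ i, Fin (q i) → k) (x : Fin m → L) (hx : ∀ i b, x i ≠ algebraMap k L (a i b))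
    (T : Finset ℕ) (hdis : ∀ i j, i ≠ j → ∀ v : HeightOneSpectrum (𝓞 L),
      Nr T (a i) (x i) v → Nr T (a j) (x j) v → False) :
    ∑ i, ((finrank (IntermediateField.adjoin k {x i}) L : ℝ) *
      cnt T (a i) (IntermediateField.AdjoinSimple.gen k (x i)) - cnt T (a i) (x i)) ≤
      Real.log |(discr L : ℝ)| := by
  classical
  have hgen : ∀ i, algebraMap (IntermediateField.adjoin k {x i}) L
      (IntermediateField.AdjoinSimple.gen k (x i)) = x i := fun i =>
    IntermediateField.AdjoinSimple.algebraMap_gen k (x i)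
  have hya : ∀ i b, IntermediateField.AdjoinSimple.gen k (x i) ≠
      algebraMap k (IntermediateField.adjoin k {x i}) (a i b) := by
    intro i b h
    apply hx i b
    rw [← hgen i, h, ← IsScalarTower.algebraMap_apply]
  have h1 := Pool.Agent.N901.PC.Comb.t k L m (fun i => IntermediateField.adjoin k {x i})
    (fun i => (nr_fin T (hya i)).toFinset) (fun i => (nr_fin T (hx i)).toFinset) (by
      intro i u
      rw [Set.Finite.mem_toFinset]
      constructor
      · intro hu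
        refine ⟨HeightOneSpectrum.under (𝓞 (IntermediateField.adjoin k {x i})) u, ?_, ?_⟩
        · rw [Set.Finite.mem_toFinset]
          haveI : u.asIdeal.LiesOver
              (HeightOneSpectrum.under (𝓞 (IntermediateField.adjoin k {x i})) u).asIdeal :=
            ⟨by rw [HeightOneSpectrum.under_asIdeal]⟩
          refine (Pool.Agent.Y729.RV.nr_iff (K := k) T (a i)
            (IntermediateField.AdjoinSimple.gen k (x i)) _ u).1 ?_
          rw [hgen i]
          exact hu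
        · exact ⟨by rw [HeightOneSpectrum.under_asIdeal]⟩
      · rintro ⟨w, hw, hwu⟩
        rw [Set.Finite.mem_toFinset] at hw
        haveI := hwu
        have h2 := (Pool.Agent.Y729.RV.nr_iff (K := k) T (a i)
            (IntermediateField.AdjoinSimple.gen k (x i)) w u).2 hw
        rw [hgen i] at h2
        exact h2) (by
      intro i j hij
      rw [Finset.disjoint_left]
      intro v hv hv'
      rw [Set.Finite.mem_toFinset] at hv hv'
      exact hdis i j hij v hv hv')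
  rw [Finset.sum_sub_distrib]
  have h2 : ∑ i, (finrank (IntermediateField.adjoin k {x i}) L : ℝ) *
      cnt T (a i) (IntermediateField.AdjoinSimple.gen k (x i)) =
      ∑ i, (finrank (IntermediateField.adjoin k {x i}) L : ℝ) *
        ∑ w ∈ (nr_fin T (hya i)).toFinset, lN w :=
    Finset.sum_congr rfl fun i _ => by rw [cnt_eq T (hya i)]; rfl
  have h3 : ∑ i, cnt T (a i) (x i) = ∑ i, ∑ w ∈ (nr_fin T (hx i)).toFinset, lN w :=
    Finset.sum_congr rfl fun i _ => by rw [cnt_eq T (hx i)]; rfl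
  rw [h2, h3]
  linarith

/-- the primes of coincidences -/
theorem exists_coinc {k : Type} [Field k] [NumberField k] [Algebra k L] {m : ℕ} (q : Fin m → ℕ)
    (a : ∀ i, Fin (q i) → k) (x : Fin m → L) (hx : ∀ i b, x i ≠ algebraMap k L (a i b))
    (T : Finset ℕ) : ∃ Q : Fin m → Fin m → Finset ℕ,
      (∀ i j, ∀ p ∈ Q i j, p.Prime ∧ ∃ v : HeightOneSpectrum (𝓞 L), (p : 𝓞 L) ∈ v.asIdeal ∧
        Nr T (a i) (x i) v ∧ Nr T (a j) (x j) v) ∧
      ∀ i j (v : HeightOneSpectrum (𝓞 L)), Nr T (a i) (x i) v → Nr T (a j) (x j) v →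
        ∃ p ∈ Q i j, (p : 𝓞 L) ∈ v.asIdeal := by
  classical
  choose pr hpr hprv _ using fun v : HeightOneSpectrum (𝓞 L) =>
    Pool.Agent.L5helper17.DR.exists_prime v
  refine ⟨fun i j => ((nr_fin T (hx i)).toFinset ∩ (nr_fin T (hx j)).toFinset).image pr, ?_, ?_⟩
  · intro i j p hp
    obtain ⟨v, hv, rfl⟩ := Finset.mem_image.1 hp
    rw [Finset.mem_inter, Set.Finite.mem_toFinset, Set.Finite.mem_toFinset] at hv
    exact ⟨hpr v, v, hprv v, hv.1, hv.2⟩
  · intro i j v h1 h2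
    refine ⟨pr v, Finset.mem_image.2 ⟨v, ?_, rfl⟩, hprv v⟩
    rw [Finset.mem_inter, Set.Finite.mem_toFinset, Set.Finite.mem_toFinset]
    exact ⟨h1, h2⟩

end primes

end Pool.Agent.L5helper18.PC
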